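import Mathlib

set_option autoImplicit false

/-!
A diagonal argument: a nonnegative function on the subsets of a set which is almost subadditive for
the Boolean operations is bounded.
-/

namespace Pool.Agent.L0h58.QP

/-- A nonnegative function `φ` on the power set of `I` with `φ (E ∪ F) ≤ φ E + φ F` for disjoint
`E`, `F`, `φ (F \ E) ≤ φ F + φ E` for `E ⊆ F`, and `φ (E ∩ F) ≤ c (φ E + φ F)` is bounded. -/
theorem comb {I : Type*} (φ : Set I → ℝ) (c : ℝ) (hc : 0 < c)
    (h1 : ∀ E F : Set I, Disjoint E F → φ (E ∪ F) ≤ φ E + φ F)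
    (h2 : ∀ E F : Set I, E ⊆ F → φ (F \ E) ≤ φ F + φ E)
    (h3 : ∀ E F : Set I, φ (E ∩ F) ≤ c * (φ E + φ F)) : ∃ M : ℝ, ∀ E, φ E ≤ M := by
  by_contra hcon
  push Not at hcon
  let Bad : Set I → Prop := fun J => ∀ M : ℝ, ∃ E, E ⊆ J ∧ M < φ E
  have hbad0 : Bad Set.univ := fun M => by
    obtain ⟨E, hE⟩ := hcon M
    exact ⟨E, Set.subset_univ _, hE⟩
  -- splitting
  have hsplit : ∀ J E : Set I, Bad J → E ⊆ J → Bad E ∨ Bad (J \ E) := by
    intro J E hJ hE
    by_contra hno
    rw [not_or] at hno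
    obtain ⟨hn1, hn2⟩ := hno
    simp only [Bad, not_forall, not_exists, not_and, not_lt] at hn1 hn2
    obtain ⟨M1, hM1⟩ := hn1
    obtain ⟨M2, hM2⟩ := hn2
    obtain ⟨F, hF, hlt⟩ := hJ (M1 + M2)
    have e : F = (F ∩ E) ∪ (F \ E) := (Set.inter_union_diff F E).symm
    have hd : Disjoint (F ∩ E) (F \ E) := by
      rw [Set.disjoint_left]
      rintro x ⟨_, hx⟩ ⟨_, hx'⟩
      exact hx' hx
    have := h1 _ _ hd
    rw [← e] at this
    have a1 := hM1 (F ∩ E) Set.inter_subset_right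
    have a2 := hM2 (F \ E) (Set.diff_subset_diff_left hF)
    linarith
  have hstep : ∀ J : Set I, Bad J → ∀ M : ℝ, ∃ D, D ⊆ J ∧ M < φ D ∧ Bad (J \ D) := by
    intro J hJ M
    obtain ⟨E, hE, hlt⟩ := hJ (|M| + |φ J|)
    have hM : M < φ E := by
      have := le_abs_self M
      have := abs_nonneg (φ J)
      linarith
    have hM' : M < φ (J \ E) := by
      have h := h2 (J \ E) J Set.diff_subset
      rw [Set.diff_diff_cancel_left hE] at h
      have := le_abs_self M
      have := le_abs_self (φ J)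
      linarith
    rcases hsplit J E hJ hE with hb | hb
    · refine ⟨J \ E, Set.diff_subset, hM', ?_⟩
      rw [Set.diff_diff_cancel_left hE]
      exact hb
    · exact ⟨E, hE, hM, hb⟩
  choose! D hD1 hD2 hD3 using hstep
  let seq : ℕ → {J : Set I // Bad J} := fun n =>
    Nat.rec ⟨Set.univ, hbad0⟩ (fun i J => ⟨J.1 \ D J.1 (i : ℝ), hD3 J.1 J.2 _⟩) n
  have hseq : ∀ i, (seq (i + 1)).1 = (seq i).1 \ D (seq i).1 (i : ℝ) := fun i => rfl
  let d : ℕ → Set I := fun i => D (seq i).1 (i : ℝ)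
  have hdsub : ∀ i, d i ⊆ (seq i).1 := fun i => hD1 _ (seq i).2 _
  have hdphi : ∀ i : ℕ, (i : ℝ) < φ (d i) := fun i => hD2 _ (seq i).2 _
  have hanti : ∀ i j, i ≤ j → (seq j).1 ⊆ (seq i).1 := by
    intro i j hij
    induction hij with
    | refl => exact subset_rfl
    | step _ ih =>
      refine subset_trans ?_ ih
      rw [hseq]
      exact Set.diff_subset
  have hdisj : ∀ i j, i < j → Disjoint (d i) (d j) := by
    intro i j hij
    rw [Set.disjoint_left]
    intro x hx hx'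
    have := hanti (i + 1) j hij (hdsub j hx')
    rw [hseq] at this
    exact this.2 hx
  have hdisj' : ∀ i j x, x ∈ d i → x ∈ d j → i = j := by
    intro i j x hi hj
    rcases lt_trichotomy i j with h | h | h
    · exact absurd hj (Set.disjoint_left.1 (hdisj i j h) hi)
    · exact h
    · exact absurd hi (Set.disjoint_left.1 (hdisj j i h) hj)
  let A : ℕ → Set I := fun l => {x | ∃ k, x ∈ d (Nat.pair l k)}
  have hAbad : ∀ l, Bad (A l) := by
    intro l M
    obtain ⟨k, hk⟩ := exists_nat_gt M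
    refine ⟨d (Nat.pair l k), fun x hx => ⟨k, hx⟩, ?_⟩
    have h1 := hdphi (Nat.pair l k)
    have h2 : (k : ℝ) ≤ (Nat.pair l k : ℝ) := by exact_mod_cast Nat.right_le_pair l k
    linarith
  have hAdisj : ∀ l l' x, x ∈ A l → x ∈ A l' → l = l' := by
    rintro l l' x ⟨k, hk⟩ ⟨k', hk'⟩
    have := hdisj' _ _ x hk hk'
    have := congrArg Nat.unpair this
    rw [Nat.unpair_pair, Nat.unpair_pair] at this
    exact (Prod.ext_iff.1 this).1
  have hex : ∀ l : ℕ, ∃ E, E ⊆ A l ∧ c * (φ (A l) + l) < φ E := fun l => hAbad l _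
  choose E hE1 hE2 using hex
  obtain ⟨l, hl⟩ := exists_nat_gt (φ (⋃ l, E l))
  have e : (⋃ l, E l) ∩ A l = E l := by
    ext x
    constructor
    · rintro ⟨hx, hxA⟩
      obtain ⟨l', hl'⟩ := Set.mem_iUnion.1 hx
      have := hAdisj l' l x (hE1 l' hl') hxA
      subst this
      exact hl'
    · intro hx
      exact ⟨Set.mem_iUnion.2 ⟨l, hx⟩, hE1 l hx⟩
  have h := h3 (⋃ l, E l) (A l)
  rw [e] at h
  have h' := hE2 l
  have : c * (φ (A l) + l) < c * (φ (⋃ l, E l) + φ (A l)) := lt_of_lt_of_le h' h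
  have := lt_of_mul_lt_mul_left this hc.le
  linarith

end Pool.Agent.L0h58.QP
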