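import Mathlib

set_option autoImplicit false

/-!
The group `LG K`: pairs `(f, n)` of a function `f : ℤ → K` which is constant near `-∞` and an integer
`n`, where `n` acts by translation.
-/

namespace Pool.Agent.L0h58.QP

/-- pairs of a function `ℤ → K` that is constant near `-∞` and an integer -/
@[ext] structure LG (K : Type) where
  /-- the lamps -/
  f : ℤ → K
  /-- the height -/
  n : ℤ
  ev : ∃ (N : ℤ) (c : K), ∀ m < N, f m = c

namespace LG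

variable {K : Type} [Group K]

instance : Mul (LG K) := ⟨fun a b => ⟨fun i => a.f i * b.f (i - a.n), a.n + b.n, by
  obtain ⟨N, c, h⟩ := a.ev
  obtain ⟨N', c', h'⟩ := b.ev
  refine ⟨min N (N' + a.n), c * c', fun m hm => ?_⟩
  rw [lt_min_iff] at hm
  rw [h m hm.1, h' (m - a.n) (by omega)]⟩⟩

instance : One (LG K) := ⟨⟨fun _ => 1, 0, 0, 1, fun _ _ => rfl⟩⟩

instance : Inv (LG K) := ⟨fun a => ⟨fun i => (a.f (i + a.n))⁻¹, -a.n, by
  obtain ⟨N, c, h⟩ := a.ev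
  exact ⟨N - a.n, c⁻¹, fun m hm => by rw [h _ (by omega)]⟩⟩⟩

@[simp] theorem mul_f (a b : LG K) (i : ℤ) : (a * b).f i = a.f i * b.f (i - a.n) := rfl
@[simp] theorem mul_n (a b : LG K) : (a * b).n = a.n + b.n := rfl
@[simp] theorem one_f (i : ℤ) : (1 : LG K).f i = 1 := rfl
@[simp] theorem one_n : (1 : LG K).n = 0 := rfl
@[simp] theorem inv_f (a : LG K) (i : ℤ) : (a⁻¹).f i = (a.f (i + a.n))⁻¹ := rfl
@[simp] theorem inv_n (a : LG K) : (a⁻¹).n = -a.n := rfl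

theorem ext' {a b : LG K} (h : ∀ i, a.f i = b.f i) (hn : a.n = b.n) : a = b :=
  LG.ext (funext h) hn

instance : Group (LG K) := Group.ofLeftAxioms
  (fun a b c => ext' (fun i => by
    simp only [mul_f, mul_n, mul_assoc]
    rw [sub_sub]) (by simp only [mul_n, add_assoc]))
  (fun a => ext' (fun i => by simp) (by simp))
  (fun a => ext' (fun i => by simp) (by simp))

/-- the translation -/
def t : LG K := ⟨fun _ => 1, 1, 0, 1, fun _ _ => rfl⟩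

@[simp] theorem t_f (i : ℤ) : (t : LG K).f i = 1 := rfl
@[simp] theorem t_n : (t : LG K).n = 1 := rfl

@[simp] theorem tpow_n (k : ℕ) : ((t : LG K) ^ k).n = k := by
  induction k with
  | zero => simp
  | succ k ih => rw [pow_succ, mul_n, ih]; simp

@[simp] theorem tpow_f (k : ℕ) (i : ℤ) : ((t : LG K) ^ k).f i = 1 := by
  induction k generalizing i with
  | zero => simp
  | succ k ih => rw [pow_succ, mul_f, ih]; simp

theorem conj_n (a : LG K) (k : ℕ) : (t ^ k * a * (t ^ k)⁻¹).n = a.n := by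
  simp

theorem conj_f (a : LG K) (k : ℕ) (i : ℤ) : (t ^ k * a * (t ^ k)⁻¹).f i = a.f (i - k) := by
  simp

theorem conj'_n (a : LG K) (k : ℕ) : ((t ^ k)⁻¹ * a * t ^ k).n = a.n := by
  simp

theorem conj'_f (a : LG K) (k : ℕ) (i : ℤ) : ((t ^ k)⁻¹ * a * t ^ k).f i = a.f (i + k) := by
  simp

/-- height zero and trivial before `p` -/
def Hs (p : ℤ) (g : LG K) : Prop := g.n = 0 ∧ ∀ m < p, g.f m = 1

/-- height zero and constant before `p` -/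
def Hc (p : ℤ) (g : LG K) : Prop := g.n = 0 ∧ ∃ c, ∀ m < p, g.f m = c

theorem Hs.hc {p : ℤ} {g : LG K} (h : Hs p g) : Hc p g := ⟨h.1, 1, h.2⟩

theorem Hs.one {p : ℤ} : Hs p (1 : LG K) := ⟨rfl, fun _ _ => rfl⟩

theorem Hs.mul {p : ℤ} {g h : LG K} (hg : Hs p g) (hh : Hs p h) : Hs p (g * h) := by
  refine ⟨by simp [hg.1, hh.1], fun m hm => ?_⟩
  rw [mul_f, hg.1, sub_zero, hg.2 m hm, hh.2 m hm, mul_one]

theorem Hs.inv {p : ℤ} {g : LG K} (hg : Hs p g) : Hs p g⁻¹ := by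
  refine ⟨by simp [hg.1], fun m hm => ?_⟩
  rw [inv_f, hg.1, add_zero, hg.2 m hm, inv_one]

theorem Hs.mono {p q : ℤ} {g : LG K} (hg : Hs p g) (h : q ≤ p) : Hs q g :=
  ⟨hg.1, fun m hm => hg.2 m (by omega)⟩

theorem Hc.one {p : ℤ} : Hc p (1 : LG K) := Hs.one.hc

theorem Hc.mul {p : ℤ} {g h : LG K} (hg : Hc p g) (hh : Hc p h) : Hc p (g * h) := by
  obtain ⟨h1, c, h2⟩ := hg
  obtain ⟨h1', c', h2'⟩ := hh
  refine ⟨by simp [h1, h1'], c * c', fun m hm => ?_⟩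
  rw [mul_f, h1, sub_zero, h2 m hm, h2' m hm]

theorem Hc.inv {p : ℤ} {g : LG K} (hg : Hc p g) : Hc p g⁻¹ := by
  obtain ⟨h1, c, h2⟩ := hg
  refine ⟨by simp [h1], c⁻¹, fun m hm => ?_⟩
  rw [inv_f, h1, add_zero, h2 m hm]

theorem Hc.mono {p q : ℤ} {g : LG K} (hg : Hc p g) (h : q ≤ p) : Hc q g := by
  obtain ⟨h1, c, h2⟩ := hg
  exact ⟨h1, c, fun m hm => h2 m (by omega)⟩

theorem Hc.pow {p : ℤ} {g : LG K} (hg : Hc p g) (k : ℕ) : Hc p (g ^ k) := by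
  induction k with
  | zero => rw [pow_zero]; exact Hc.one
  | succ k ih => rw [pow_succ]; exact ih.mul hg

theorem Hs.conj {p : ℤ} {g : LG K} (hg : Hs p g) (k : ℕ) : Hs (p + k) (t ^ k * g * (t ^ k)⁻¹) := by
  refine ⟨by rw [conj_n, hg.1], fun m hm => ?_⟩
  rw [conj_f]
  exact hg.2 _ (by omega)

theorem Hs.conj' {p : ℤ} {g : LG K} (hg : Hs p g) (k : ℕ) :
    Hs (p - k) ((t ^ k)⁻¹ * g * t ^ k) := by
  refine ⟨by rw [conj'_n, hg.1], fun m hm => ?_⟩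
  rw [conj'_f]
  exact hg.2 _ (by omega)

theorem Hc.conj {p : ℤ} {g : LG K} (hg : Hc p g) (k : ℕ) : Hc (p + k) (t ^ k * g * (t ^ k)⁻¹) := by
  obtain ⟨h1, c, h2⟩ := hg
  refine ⟨by rw [conj_n, h1], c, fun m hm => ?_⟩
  rw [conj_f]
  exact h2 _ (by omega)

theorem Hc.conj' {p : ℤ} {g : LG K} (hg : Hc p g) (k : ℕ) :
    Hc (p - k) ((t ^ k)⁻¹ * g * t ^ k) := by
  obtain ⟨h1, c, h2⟩ := hg
  refine ⟨by rw [conj'_n, h1], c, fun m hm => ?_⟩
  rw [conj'_f]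
  exact h2 _ (by omega)

theorem exists_hc (g : LG K) (h : g.n = 0) : ∃ p : ℕ, Hc (-(p : ℤ)) g := by
  obtain ⟨N, c, hN⟩ := g.ev
  exact ⟨N.natAbs, h, c, fun m hm => hN m (by omega)⟩

/-- the constant functions -/
def cst (c : K) : LG K := ⟨fun _ => c, 0, 0, c, fun _ _ => rfl⟩

@[simp] theorem cst_f (c : K) (i : ℤ) : (cst c).f i = c := rfl
@[simp] theorem cst_n (c : K) : (cst c).n = 0 := rfl

theorem cst_hc (c : K) (p : ℤ) : Hc p (cst c) := ⟨rfl, c, fun _ _ => rfl⟩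

theorem Hc.exists_hs {p : ℤ} {g : LG K} (hg : Hc p g) : ∃ c, Hs p ((cst c)⁻¹ * g) := by
  obtain ⟨h1, c, h2⟩ := hg
  refine ⟨c, by simp [h1], fun m hm => ?_⟩
  simp [h2 m hm]

end LG

/-- A length function on a group. -/
structure Len (G : Type) [Group G] where
  /-- the length -/
  l : G → ℝ
  one : l 1 = 0
  inv : ∀ g, l g⁻¹ = l g
  mul : ∀ g h, l (g * h) ≤ l g + l h

namespace Len

variable {G : Type} [Group G] (ℓ : Len G)

theorem nonneg (g : G) : 0 ≤ ℓ.l g := by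
  have := ℓ.mul g g⁻¹
  rw [mul_inv_cancel, ℓ.one, ℓ.inv] at this
  linarith

theorem pow_le (g : G) (k : ℕ) : ℓ.l (g ^ k) ≤ k * ℓ.l g := by
  induction k with
  | zero => simp [ℓ.one]
  | succ k ih =>
    rw [pow_succ]
    have := ℓ.mul (g ^ k) g
    push_cast
    linarith

theorem conj_le (g h : G) : ℓ.l (g * h * g⁻¹) ≤ ℓ.l h + 2 * ℓ.l g := by
  have h1 := ℓ.mul (g * h) g⁻¹
  have h2 := ℓ.mul g h
  rw [ℓ.inv] at h1
  linarith

theorem conj_le' (g h : G) : ℓ.l (g⁻¹ * h * g) ≤ ℓ.l h + 2 * ℓ.l g := by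
  have h1 := ℓ.mul (g⁻¹ * h) g
  have h2 := ℓ.mul g⁻¹ h
  rw [ℓ.inv] at h2
  linarith

theorem comm_le (g h : G) : ℓ.l (g * h * g⁻¹ * h⁻¹) ≤ 2 * ℓ.l g + 2 * ℓ.l h := by
  have h1 := ℓ.mul (g * h * g⁻¹) h⁻¹
  have h2 := ℓ.conj_le g h
  rw [ℓ.inv] at h1
  linarith

/-- `|ℓ (g h) - ℓ g| ≤ ℓ h` -/
theorem le_mul_right (g h : G) : ℓ.l g ≤ ℓ.l (g * h) + ℓ.l h := by
  have := ℓ.mul (g * h) h⁻¹
  rw [mul_inv_cancel_right, ℓ.inv] at this
  exact this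

theorem le_mul_left (g h : G) : ℓ.l h ≤ ℓ.l (g * h) + ℓ.l g := by
  have := ℓ.mul g⁻¹ (g * h)
  rw [inv_mul_cancel_left, ℓ.inv] at this
  linarith

end Len

end Pool.Agent.L0h58.QP
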