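import Mathlib
import Pool.Agent.L0h58.QP.Comb
import Pool.Agent.L0h58.QP.Lamp

set_option autoImplicit false

/-!
Strong boundedness (Bergman's property) of the group of all functions `ℤ → K` that are trivial (or
constant) on the negative integers, `K` a finite perfect group.
-/

namespace Pool.Agent.L0h58.QP

open LG

variable {K : Type} [Group K]

open Classical in
/-- the function with value `k` on `E ∩ [0, ∞)` and `1` elsewhere -/
noncomputable def chi (E : Set ℤ) (k : K) : LG K :=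
  ⟨fun m => if m ∈ E ∧ 0 ≤ m then k else 1, 0, 0, 1, fun m hm => by
    rw [if_neg]; rintro ⟨_, h⟩; omega⟩

theorem chi_n (E : Set ℤ) (k : K) : (chi E k).n = 0 := rfl

open Classical in
theorem chi_f (E : Set ℤ) (k : K) (m : ℤ) :
    (chi E k).f m = if m ∈ E ∧ 0 ≤ m then k else 1 := rfl

theorem chi_union {E F : Set ℤ} (h : Disjoint E F) (k : K) :
    chi (E ∪ F) k = chi E k * chi F k := by
  refine LG.ext' (fun m => ?_) (by simp [chi_n])
  rw [mul_f, chi_f, chi_f, chi_f, chi_n, sub_zero]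
  by_cases h0 : 0 ≤ m
  · by_cases h1 : m ∈ E
    · have h2 : m ∉ F := Set.disjoint_left.1 h h1
      simp [h0, h1, h2]
    · by_cases h2 : m ∈ F <;> simp [h0, h1, h2]
  · simp [h0]

theorem chi_diff {E F : Set ℤ} (h : E ⊆ F) (k : K) :
    chi (F \ E) k = chi F k * (chi E k)⁻¹ := by
  refine LG.ext' (fun m => ?_) (by simp [chi_n])
  rw [mul_f, inv_f, chi_f, chi_f, chi_f, chi_n, chi_n, sub_zero, add_zero]
  by_cases h0 : 0 ≤ m
  · by_cases h1 : m ∈ E
    · have h2 : m ∈ F := h h1
      simp [h0, h1, h2]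
    · by_cases h2 : m ∈ F <;> simp [h0, h1, h2]
  · simp [h0]

theorem chi_comm (E F : Set ℤ) (a b : K) :
    chi (E ∩ F) (a * b * a⁻¹ * b⁻¹) = chi E a * chi F b * (chi E a)⁻¹ * (chi F b)⁻¹ := by
  refine LG.ext' (fun m => ?_) (by simp [chi_n])
  simp only [mul_f, inv_f, mul_n, inv_n, chi_f, chi_n, sub_zero, add_zero, neg_zero]
  by_cases h0 : 0 ≤ m
  · by_cases h1 : m ∈ E
    · by_cases h2 : m ∈ F <;> simp [h0, h1, h2]
    · by_cases h2 : m ∈ F <;> simp [h0, h1, h2]
  · simp [h0]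

theorem chi_one (E : Set ℤ) : chi E (1 : K) = 1 := by
  refine LG.ext' (fun m => ?_) rfl
  rw [chi_f, one_f, ite_self]

theorem chi_mul (E : Set ℤ) (a b : K) : chi E (a * b) = chi E a * chi E b := by
  refine LG.ext' (fun m => ?_) (by simp [chi_n])
  simp only [mul_f, chi_f, chi_n, sub_zero]
  split_ifs <;> simp

theorem chi_inv (E : Set ℤ) (a : K) : chi E a⁻¹ = (chi E a)⁻¹ := by
  refine LG.ext' (fun m => ?_) (by simp [chi_n])
  simp only [inv_f, chi_f, chi_n, add_zero]
  split_ifs <;> simp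

section

variable [Finite K] (hperf : commutator K = ⊤) (ℓ : Len (LG K))

/-- the size of a subset -/
noncomputable def phi (E : Set ℤ) : ℝ := by
  classical
  exact ∑ᶠ k : K, ℓ.l (chi E k)

theorem phi_eq [Fintype K] (E : Set ℤ) : phi ℓ E = ∑ k : K, ℓ.l (chi E k) :=
  finsum_eq_sum_of_fintype _

theorem le_phi (E : Set ℤ) (k : K) : ℓ.l (chi E k) ≤ phi ℓ E := by
  have := Fintype.ofFinite K
  rw [phi_eq]
  exact Finset.single_le_sum (f := fun k => ℓ.l (chi E k)) (fun i _ => ℓ.nonneg _)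
    (Finset.mem_univ k)

theorem phi_nonneg (E : Set ℤ) : 0 ≤ phi ℓ E := by
  have := Fintype.ofFinite K
  rw [phi_eq]
  exact Finset.sum_nonneg fun i _ => ℓ.nonneg _

include hperf in
theorem bdd_phi : ∃ M : ℝ, ∀ E, phi ℓ E ≤ M := by
  have := Fintype.ofFinite K
  -- products of commutators
  have key : ∀ k : K, ∃ c : ℝ, 0 ≤ c ∧ ∀ E F : Set ℤ,
      ℓ.l (chi (E ∩ F) k) ≤ c * (phi ℓ E + phi ℓ F) := by
    intro k
    have hk : k ∈ commutator K := by rw [hperf]; trivial
    rw [commutator_eq_closure] at hk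
    induction hk using Subgroup.closure_induction with
    | mem x hx =>
      obtain ⟨a, b, rfl⟩ := hx
      refine ⟨2, by norm_num, fun E F => ?_⟩
      rw [commutatorElement_def, chi_comm]
      have h1 := ℓ.comm_le (chi E a) (chi F b)
      have h2 := le_phi ℓ E a
      have h3 := le_phi ℓ F b
      linarith
    | one =>
      refine ⟨0, le_rfl, fun E F => ?_⟩
      rw [chi_one, ℓ.one, zero_mul]
    | mul x y _ _ hx hy =>
      obtain ⟨c, hc, h⟩ := hx
      obtain ⟨c', hc', h'⟩ := hy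
      refine ⟨c + c', by linarith, fun E F => ?_⟩
      rw [chi_mul]
      have h1 := ℓ.mul (chi (E ∩ F) x) (chi (E ∩ F) y)
      have h2 := h E F
      have h3 := h' E F
      linarith
    | inv x _ hx =>
      obtain ⟨c, hc, h⟩ := hx
      refine ⟨c, hc, fun E F => ?_⟩
      rw [chi_inv, ℓ.inv]
      exact h E F
  choose c hc0 hc using key
  refine comb (phi ℓ) (∑ k, c k + 1) ?_ ?_ ?_ ?_
  · have := Finset.sum_nonneg fun (k : K) (_ : k ∈ Finset.univ) => hc0 k
    linarith
  · intro E F hEF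
    rw [phi_eq, phi_eq, phi_eq, ← Finset.sum_add_distrib]
    refine Finset.sum_le_sum fun k _ => ?_
    rw [chi_union hEF]
    exact ℓ.mul _ _
  · intro E F hEF
    rw [phi_eq, phi_eq, phi_eq, ← Finset.sum_add_distrib]
    refine Finset.sum_le_sum fun k _ => ?_
    rw [chi_diff hEF]
    have := ℓ.mul (chi F k) (chi E k)⁻¹
    rw [ℓ.inv] at this
    exact this
  · intro E F
    have h1 : phi ℓ (E ∩ F) ≤ ∑ k, c k * (phi ℓ E + phi ℓ F) := by
      rw [phi_eq ℓ (E ∩ F)]
      exact Finset.sum_le_sum fun k _ => hc k E F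
    rw [← Finset.sum_mul] at h1
    have := phi_nonneg ℓ E
    have := phi_nonneg ℓ F
    nlinarith

include hperf in
theorem bdd_hs0 : ∃ M : ℝ, 0 ≤ M ∧ ∀ g : LG K, Hs 0 g → ℓ.l g ≤ M := by
  have := Fintype.ofFinite K
  classical
  obtain ⟨M, hM⟩ := bdd_phi hperf ℓ
  have hM0 : 0 ≤ M := (phi_nonneg ℓ ∅).trans (hM ∅)
  have key : ∀ s : Finset K, ∀ g : LG K, Hs 0 g → (∀ m, g.f m = 1 ∨ g.f m ∈ s) →
      ℓ.l g ≤ s.card * M := by
    intro s
    induction s using Finset.induction_on with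
    | empty =>
      intro g hg h
      have : g = 1 := LG.ext' (fun m => by simpa using h m) hg.1
      rw [this, ℓ.one]
      simp
    | insert k s hks ih =>
      intro g hg h
      set E : Set ℤ := {m | g.f m = k} with hE
      set g' : LG K := (chi E k)⁻¹ * g with hg'
      have hchi : Hs 0 (chi E k) := ⟨rfl, fun m hm => by rw [chi_f, if_neg]; rintro ⟨_, h⟩; omega⟩
      have hg'0 : Hs 0 g' := hchi.inv.mul hg
      have e : g = chi E k * g' := by rw [hg', mul_inv_cancel_left]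
      have h1 : ∀ m, g'.f m = 1 ∨ g'.f m ∈ s := by
        intro m
        by_cases h0 : 0 ≤ m
        · have e1 : g'.f m = (if g.f m = k then k else 1)⁻¹ * g.f m := by
            rw [hg', mul_f, inv_f, inv_n, chi_n, chi_f, neg_zero, sub_zero, add_zero]
            simp [hE, h0]
          by_cases h2 : g.f m = k
          · left
            rw [e1, if_pos h2, h2, inv_mul_cancel]
          · rw [e1, if_neg h2, inv_one, one_mul]
            rcases h m with h3 | h3
            · exact Or.inl h3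
            · rw [Finset.mem_insert] at h3
              exact Or.inr (h3.resolve_left h2)
        · exact Or.inl (hg'0.2 m (by omega))
      have h2 := ih g' hg'0 h1
      have h3 := ℓ.mul (chi E k) g'
      rw [← e] at h3
      have h4 := (le_phi ℓ E k).trans (hM E)
      rw [Finset.card_insert_of_notMem hks]
      push_cast
      linarith
  refine ⟨Fintype.card K * M, by positivity, fun g hg => ?_⟩
  exact key Finset.univ g hg fun m => Or.inr (Finset.mem_univ _)

include hperf in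
theorem bdd_hc (p : ℕ) : ∃ M : ℝ, 0 ≤ M ∧ ∀ g : LG K, Hc (-(p : ℤ)) g → ℓ.l g ≤ M := by
  have := Fintype.ofFinite K
  obtain ⟨M, hM0, hM⟩ := bdd_hs0 hperf ℓ
  have hC : 0 ≤ ∑ c : K, ℓ.l (cst c) := Finset.sum_nonneg fun c _ => ℓ.nonneg _
  have ht : 0 ≤ ℓ.l (t ^ p) := ℓ.nonneg _
  refine ⟨∑ c : K, ℓ.l (cst c) + M + 2 * ℓ.l (t ^ p), by linarith, fun g hg => ?_⟩
  have h1 : Hc 0 (t ^ p * g * (t ^ p)⁻¹) := by
    have := hg.conj p
    rwa [neg_add_cancel] at this
  obtain ⟨c, hc⟩ := h1.exists_hs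
  have h2 := hM _ hc
  have h3 := ℓ.mul (cst c) ((cst c)⁻¹ * (t ^ p * g * (t ^ p)⁻¹))
  rw [mul_inv_cancel_left] at h3
  have h4 : ℓ.l (cst c) ≤ ∑ c : K, ℓ.l (cst c) :=
    Finset.single_le_sum (f := fun c : K => ℓ.l (cst c)) (fun i _ => ℓ.nonneg _)
      (Finset.mem_univ c)
  have h5 := ℓ.conj_le' (t ^ p) (t ^ p * g * (t ^ p)⁻¹)
  have e : (t ^ p)⁻¹ * (t ^ p * g * (t ^ p)⁻¹) * t ^ p = g := by group
  rw [e] at h5
  linarith

end

/-- elements of height zero have finite order -/
theorem pow_exponent [Finite K] (g : LG K) (hg : g.n = 0) : g ^ Monoid.exponent K = 1 := by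
  have h : ∀ k : ℕ, (g ^ k).n = 0 ∧ ∀ i, (g ^ k).f i = (g.f i) ^ k := by
    intro k
    induction k with
    | zero => simp
    | succ k ih =>
      refine ⟨by rw [pow_succ, mul_n, ih.1, hg, add_zero], fun i => ?_⟩
      rw [pow_succ, mul_f, ih.1, sub_zero, ih.2, pow_succ]
  refine LG.ext' (fun i => ?_) (h _).1
  rw [(h _).2, Monoid.pow_exponent_eq_one, one_f]

end Pool.Agent.L0h58.QP
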