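import Mathlib
import Pool.Agent.L0h58.QP.Lamp

set_option autoImplicit false

/-!
Hyperbolic length functions and loxodromic elements.
-/

namespace Pool.Agent.L0h58.QP

/-- the Gromov product -/
noncomputable def gpr {G : Type} [Group G] (ℓ : Len G) (a b : G) : ℝ :=
  (ℓ.l a + ℓ.l b - ℓ.l (a⁻¹ * b)) / 2

/-- hyperbolicity of a length function -/
structure Hyp {G : Type} [Group G] (ℓ : Len G) (δ : ℝ) : Prop where
  nn : 0 ≤ δ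
  hyp : ∀ x y z : G, min (gpr ℓ x y) (gpr ℓ y z) - δ ≤ gpr ℓ x z

variable {G : Type} [Group G] {ℓ : Len G} {δ : ℝ}

theorem gpr_nonneg (ℓ : Len G) (a b : G) : 0 ≤ gpr ℓ a b := by
  unfold gpr
  have := ℓ.mul a⁻¹ b
  rw [ℓ.inv] at this
  linarith

theorem gpr_comm (ℓ : Len G) (a b : G) : gpr ℓ a b = gpr ℓ b a := by
  unfold gpr
  have : ℓ.l (a⁻¹ * b) = ℓ.l (b⁻¹ * a) := by
    rw [← ℓ.inv (a⁻¹ * b)]
    congr 1
    group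
  rw [this]
  ring

/-- four point condition -/
theorem Hyp.fp (H : Hyp ℓ δ) (x y z : G) :
    ℓ.l (x⁻¹ * z) + ℓ.l y ≤ ℓ.l (x⁻¹ * y) + ℓ.l z + 2 * δ ∨
    ℓ.l (x⁻¹ * z) + ℓ.l y ≤ ℓ.l (y⁻¹ * z) + ℓ.l x + 2 * δ := by
  have h := H.hyp x y z
  unfold gpr at h
  rcases le_total ((ℓ.l x + ℓ.l y - ℓ.l (x⁻¹ * y)) / 2) ((ℓ.l y + ℓ.l z - ℓ.l (y⁻¹ * z)) / 2)
    with h1 | h1
  · rw [min_eq_left h1] at h
    left; linarith
  · rw [min_eq_right h1] at h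
    right; linarith

theorem qg1 (H : Hyp ℓ δ) (s : G) (hs : ℓ.l s + 4 * δ + 1 ≤ ℓ.l (s ^ 2)) (n : ℕ) :
    gpr ℓ s⁻¹ (s ^ n) ≤ gpr ℓ s⁻¹ s + δ := by
  have hδ := H.nn
  induction n with
  | zero =>
    have h0 : gpr ℓ s⁻¹ (s ^ 0) = 0 := by
      unfold gpr
      rw [pow_zero, inv_inv, mul_one, ℓ.inv, ℓ.one]
      ring
    rw [h0]
    have := gpr_nonneg ℓ s⁻¹ s
    linarith
  | succ n ih =>
    have e1 : gpr ℓ s (s ^ (n + 1)) + gpr ℓ s⁻¹ (s ^ n) = ℓ.l s := by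
      unfold gpr
      have a1 : s⁻¹ * s ^ (n + 1) = s ^ n := by rw [pow_succ']; group
      have a2 : s⁻¹⁻¹ * s ^ n = s ^ (n + 1) := by rw [inv_inv, pow_succ']
      rw [a1, a2, ℓ.inv]
      ring
    have e2 : gpr ℓ s⁻¹ s = ℓ.l s - ℓ.l (s ^ 2) / 2 := by
      unfold gpr
      rw [inv_inv, ← pow_two, ℓ.inv]
      ring
    have h := H.hyp s⁻¹ (s ^ (n + 1)) s
    rw [gpr_comm ℓ (s ^ (n + 1)) s] at h
    rcases min_le_iff.1 (show min (gpr ℓ s⁻¹ (s ^ (n + 1))) (gpr ℓ s (s ^ (n + 1))) ≤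
      gpr ℓ s⁻¹ s + δ by linarith) with h3 | h3
    · exact h3
    · exfalso
      linarith

theorem qg2 (H : Hyp ℓ δ) (s : G) (hs : ℓ.l s + 4 * δ + 1 ≤ ℓ.l (s ^ 2)) (i n : ℕ) :
    gpr ℓ (s ^ i)⁻¹ (s ^ n) ≤ gpr ℓ s⁻¹ s + 2 * δ := by
  have hδ := H.nn
  rcases i with _ | i
  · have h0 : gpr ℓ (s ^ 0)⁻¹ (s ^ n) = 0 := by
      unfold gpr
      rw [pow_zero, inv_inv, one_mul, ℓ.inv, ℓ.one]
      ring
    rw [h0]
    have := gpr_nonneg ℓ s⁻¹ s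
    linarith
  · have h1 := qg1 H s hs n
    have h2 := qg1 H s hs i
    have e1 : gpr ℓ (s ^ (i + 1))⁻¹ s⁻¹ + gpr ℓ s⁻¹ (s ^ i) = ℓ.l s := by
      unfold gpr
      have a1 : ℓ.l ((s ^ (i + 1))⁻¹⁻¹ * s⁻¹) = ℓ.l (s ^ i) := by
        congr 1
        rw [inv_inv, pow_succ, mul_inv_cancel_right]
      have a2 : s⁻¹⁻¹ * s ^ i = s ^ (i + 1) := by rw [inv_inv, pow_succ']
      rw [a1, a2, ℓ.inv, ℓ.inv]
      ring
    have e2 : gpr ℓ s⁻¹ s = ℓ.l s - ℓ.l (s ^ 2) / 2 := by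
      unfold gpr
      rw [inv_inv, ← pow_two, ℓ.inv]
      ring
    have h := H.hyp (s ^ n) (s ^ (i + 1))⁻¹ s⁻¹
    rw [gpr_comm ℓ (s ^ n) (s ^ (i + 1))⁻¹, gpr_comm ℓ (s ^ n) s⁻¹] at h
    rcases min_le_iff.1 (show min (gpr ℓ (s ^ (i + 1))⁻¹ (s ^ n)) (gpr ℓ (s ^ (i + 1))⁻¹ s⁻¹) ≤
      gpr ℓ s⁻¹ s + 2 * δ by linarith) with h3 | h3
    · exact h3
    · exfalso
      linarith

/-- a power of a loxodromic element satisfies the hypothesis of `qg1` -/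
theorem exists_pow (t : G) (c C : ℝ) (hc : 0 < c) (h : ∀ n : ℕ, c * n - C ≤ ℓ.l (t ^ n)) (K : ℝ) :
    ∃ m : ℕ, 1 ≤ m ∧ ℓ.l (t ^ m) + K ≤ ℓ.l ((t ^ m) ^ 2) := by
  by_contra hcon
  push Not at hcon
  have h1 : ∀ j : ℕ, ℓ.l (t ^ (2 ^ j)) ≤ ℓ.l t + |K| * j := by
    intro j
    induction j with
    | zero => simp
    | succ j ih =>
      have := hcon (2 ^ j) (Nat.one_le_two_pow)
      rw [← pow_mul, ← pow_succ] at this
      have := le_abs_self K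
      push_cast
      linarith
  obtain ⟨i, hi⟩ := exists_nat_gt ((C + ℓ.l t + 2 * |K|) / c)
  rw [div_lt_iff₀ hc] at hi
  have h2 := h (2 ^ (2 * i))
  have h3 := h1 (2 * i)
  have h4 : ((i : ℝ) + 1) ^ 2 ≤ ((2 ^ (2 * i) : ℕ) : ℝ) := by
    have : i + 1 ≤ 2 ^ i := Nat.lt_two_pow_self
    have h5 : (i + 1) ^ 2 ≤ 2 ^ (2 * i) := by
      rw [mul_comm, pow_mul]
      exact Nat.pow_le_pow_left this 2
    exact_mod_cast h5
  have h6 : c * ((i : ℝ) + 1) ^ 2 ≤ c * ((2 ^ (2 * i) : ℕ) : ℝ) := mul_le_mul_of_nonneg_left h4 hc.le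
  have h7 := ℓ.nonneg t
  have h8 := abs_nonneg K
  push_cast at h3
  have h9 : (C + ℓ.l t + 2 * |K|) * ((i : ℝ) + 1) ≤ (c * i) * ((i : ℝ) + 1) := by
    apply mul_le_mul_of_nonneg_right _ (by positivity)
    linarith
  have h10 : 0 < c * ((i : ℝ) + 1) := by positivity
  have h0 : -C ≤ ℓ.l t + 0 := by
    have := h 0
    simp [ℓ.one] at this
    linarith
  nlinarith

/-- the orbit of a loxodromic element is a quasigeodesic -/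
theorem exists_E (H : Hyp ℓ δ) (t : G) (c C : ℝ) (hc : 0 < c)
    (h : ∀ n : ℕ, c * n - C ≤ ℓ.l (t ^ n)) :
    ∃ E : ℝ, 0 ≤ E ∧ ∀ i j : ℕ, ℓ.l (t ^ i) + ℓ.l (t ^ j) ≤ ℓ.l (t ^ (i + j)) + 2 * E := by
  obtain ⟨m, hm, hs⟩ := exists_pow (ℓ := ℓ) t c C hc h (4 * δ + 1)
  set s := t ^ m with hs'
  have hδ := H.nn
  have hq := qg2 H s (by linarith)
  have hg0 := gpr_nonneg ℓ s⁻¹ s
  set R := (m : ℝ) * ℓ.l t with hR
  have hR0 : 0 ≤ R := mul_nonneg (Nat.cast_nonneg _) (ℓ.nonneg t)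
  have hr : ∀ r : ℕ, r ≤ m → ℓ.l (t ^ r) ≤ R := by
    intro r hr
    refine (ℓ.pow_le t r).trans ?_
    exact mul_le_mul_of_nonneg_right (by exact_mod_cast hr) (ℓ.nonneg t)
  refine ⟨gpr ℓ s⁻¹ s + 2 * δ + 2 * R, by linarith, fun i j => ?_⟩
  have hdiv : ∀ i : ℕ, t ^ i = s ^ (i / m) * t ^ (i % m) := by
    intro i
    rw [hs', ← pow_mul, ← pow_add, Nat.div_add_mod]
  have hi := ℓ.mul (s ^ (i / m)) (t ^ (i % m))
  have hj := ℓ.mul (s ^ (j / m)) (t ^ (j % m))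
  rw [← hdiv] at hi hj
  have hi2 := hr (i % m) (Nat.mod_lt _ hm).le
  have hj2 := hr (j % m) (Nat.mod_lt _ hm).le
  have h1 := hq (i / m) (j / m)
  unfold gpr at h1 ⊢
  rw [inv_inv, ← pow_add, ℓ.inv] at h1
  -- `s ^ (i / m + j / m) = t ^ (i + j) * (t ^ (i % m) * t ^ (j % m))⁻¹`
  have e : s ^ (i / m + j / m) * (t ^ (i % m) * t ^ (j % m)) = t ^ (i + j) := by
    rw [hs', ← pow_mul, ← pow_add, ← pow_add]
    congr 1
    have a1 := Nat.div_add_mod i m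
    have a2 := Nat.div_add_mod j m
    rw [mul_add]
    omega
  have h2 := ℓ.le_mul_right (s ^ (i / m + j / m)) (t ^ (i % m) * t ^ (j % m))
  rw [e] at h2
  have h3 := ℓ.mul (t ^ (i % m)) (t ^ (j % m))
  linarith

/-- lengths of powers tend to infinity -/
theorem exists_large (t : G) (c C : ℝ) (hc : 0 < c) (h : ∀ n : ℕ, c * n - C ≤ ℓ.l (t ^ n)) (B : ℝ) :
    ∃ k₀ : ℕ, ∀ k, k₀ ≤ k → B < ℓ.l (t ^ k) := by
  obtain ⟨k₀, hk₀⟩ := exists_nat_gt ((B + C) / c)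
  rw [div_lt_iff₀ hc] at hk₀
  refine ⟨k₀, fun k hk => ?_⟩
  have h1 := h k
  have h2 : (k₀ : ℝ) ≤ k := by exact_mod_cast hk
  have h3 : c * (k₀ : ℝ) ≤ c * k := mul_le_mul_of_nonneg_left h2 hc.le
  linarith

end Pool.Agent.L0h58.QP
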