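import Mathlib
import Pool.Agent.L0h58.QP.Bdd
import Pool.Agent.L0h58.QP.Quasi

set_option autoImplicit false

/-!
Uniqueness: a hyperbolic length function on `LG K`, `K` a finite simple nonabelian group, for which
`t` is loxodromic and the elements of height zero are unbounded is determined up to equivalence.
-/

namespace Pool.Agent.L0h58.QP

open LG

variable {K : Type} [Group K]

/-- the data used below -/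
structure Dat (ℓ : Len (LG K)) (δ E : ℝ) : Prop where
  H : Hyp ℓ δ
  bdd : ∀ p : ℕ, ∃ M : ℝ, 0 ≤ M ∧ ∀ g : LG K, Hc (-(p : ℤ)) g → ℓ.l g ≤ M
  E0 : 0 ≤ E
  qg : ∀ i j : ℕ, ℓ.l (t ^ i) + ℓ.l (t ^ j) ≤ ℓ.l (t ^ (i + j)) + 2 * E
  large : ∀ B : ℝ, ∃ k₀ : ℕ, ∀ k, k₀ ≤ k → B < ℓ.l (t ^ k)
  tors : ∃ e : ℕ, 0 < e ∧ ∀ g : LG K, g.n = 0 → g ^ e = 1

variable {ℓ : Len (LG K)} {δ E : ℝ}

/-- `Hc p` is invariant under conjugation by `t` -/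
theorem hc_conj_stay {p : ℕ} {g : LG K} (hg : Hc (-(p : ℤ)) g) (k : ℕ) :
    Hc (-(p : ℤ)) (t ^ k * g * (t ^ k)⁻¹) := (hg.conj k).mono (by omega)

theorem Dat.bus_mul (D : Dat ℓ δ E) (f g : LG K) (hg : g.n = 0) :
    ∃ n₀ : ℕ, ∀ n, n₀ ≤ n →
      |(ℓ.l (f * g * (t ^ n)⁻¹) - ℓ.l (t ^ n)) - (ℓ.l (f * (t ^ n)⁻¹) - ℓ.l (t ^ n)) -
        (ℓ.l (g * (t ^ n)⁻¹) - ℓ.l (t ^ n))| ≤ 2 * δ := by
  obtain ⟨p, hp⟩ := exists_hc g hg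
  obtain ⟨M, hM0, hM⟩ := D.bdd p
  obtain ⟨n₀, hn₀⟩ := D.large (M + ℓ.l f + ℓ.l g + 2 * δ)
  have hδ := D.H.nn
  refine ⟨n₀, fun n hn => ?_⟩
  have hlarge := hn₀ n hn
  have hMg := hM _ (hc_conj_stay hp n)
  have hMg' := hM _ (hc_conj_stay hp.inv n)
  have a1 := D.H.fp f⁻¹ (t ^ n)⁻¹ (g * (t ^ n)⁻¹)
  have a2 := D.H.fp f⁻¹ (g * (t ^ n)⁻¹) (t ^ n)⁻¹
  have e1 : ((t : LG K) ^ n)⁻¹⁻¹ * (g * (t ^ n)⁻¹) = t ^ n * g * (t ^ n)⁻¹ := by group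
  have e2 : (g * ((t : LG K) ^ n)⁻¹)⁻¹ * (t ^ n)⁻¹ = t ^ n * g⁻¹ * (t ^ n)⁻¹ := by group
  rw [e1, inv_inv, ← mul_assoc, ℓ.inv, ℓ.inv] at a1
  rw [e2, inv_inv, ← mul_assoc, ℓ.inv, ℓ.inv] at a2
  -- lower bounds
  have b1 := ℓ.le_mul_left f (t ^ n)⁻¹
  have b2 := ℓ.le_mul_left g (t ^ n)⁻¹
  rw [ℓ.inv] at b1 b2
  have b3 := ℓ.le_mul_left (f * g) (t ^ n)⁻¹
  rw [ℓ.inv] at b3
  have b4 := ℓ.mul f g
  have b5 := ℓ.nonneg f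
  have b6 := ℓ.nonneg g
  rw [abs_le]
  constructor
  · rcases a2 with h | h
    · linarith
    · linarith
  · rcases a1 with h | h
    · linarith
    · linarith

/-- elements of height zero have Busemann value zero -/
theorem Dat.bus_zero (D : Dat ℓ δ E) (f : LG K) (hf : f.n = 0) :
    ∃ n₀ : ℕ, ∀ n, n₀ ≤ n → |ℓ.l (f * (t ^ n)⁻¹) - ℓ.l (t ^ n)| ≤ 2 * δ := by
  obtain ⟨e, he, hpow⟩ := D.tors
  have hδ := D.H.nn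
  have key : ∀ k : ℕ, ∃ n₀ : ℕ, ∀ n, n₀ ≤ n →
      |(ℓ.l (f ^ (k + 1) * (t ^ n)⁻¹) - ℓ.l (t ^ n)) -
        (k + 1) * (ℓ.l (f * (t ^ n)⁻¹) - ℓ.l (t ^ n))| ≤ k * (2 * δ) := by
    intro k
    induction k with
    | zero => exact ⟨0, fun n _ => by simp⟩
    | succ k ih =>
      obtain ⟨n₁, h₁⟩ := ih
      obtain ⟨n₂, h₂⟩ := D.bus_mul (f ^ (k + 1)) f hf
      refine ⟨max n₁ n₂, fun n hn => ?_⟩
      have a1 := abs_le.1 (h₁ n (le_trans (le_max_left _ _) hn))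
      have a2 := abs_le.1 (h₂ n (le_trans (le_max_right _ _) hn))
      rw [← pow_succ] at a2
      rw [abs_le]
      push_cast
      constructor <;> linarith [a1.1, a1.2, a2.1, a2.2]
  obtain ⟨n₀, hn₀⟩ := key (e - 1)
  refine ⟨n₀, fun n hn => ?_⟩
  have h := hn₀ n hn
  have e1 : e - 1 + 1 = e := by omega
  rw [e1, hpow f hf, one_mul, ℓ.inv, sub_self, zero_sub, abs_neg] at h
  have e2 : ((e - 1 : ℕ) : ℝ) + 1 = e := by exact_mod_cast e1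
  rw [e2, abs_mul, abs_of_nonneg (by positivity : (0 : ℝ) ≤ e)] at h
  have e3 : (0 : ℝ) < e := by exact_mod_cast he
  have e4 : ((e - 1 : ℕ) : ℝ) * (2 * δ) ≤ e * (2 * δ) :=
    mul_le_mul_of_nonneg_right (by linarith) (by linarith)
  exact le_of_mul_le_mul_left (h.trans e4) e3

/-- contraction -/
theorem Dat.contr (D : Dat ℓ δ E) (f : LG K) (hf : f.n = 0) (B : ℝ) (hB : ℓ.l f ≤ B) (k : ℕ)
    (hk : B + E + δ < ℓ.l (t ^ k)) : ℓ.l (t ^ k * f * (t ^ k)⁻¹) ≤ 2 * E + 12 * δ := by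
  obtain ⟨p, hp⟩ := exists_hc f hf
  obtain ⟨M, hM0, hM⟩ := D.bdd p
  obtain ⟨n₀, hn₀⟩ := D.bus_zero f hf
  obtain ⟨n₁, hn₁⟩ := D.large (M + 2 * ℓ.l (t ^ k) + 4 * δ)
  have hδ := D.H.nn
  set n := max (max n₀ n₁) k with hn
  have hnk : k ≤ n := le_max_right _ _
  have hb := abs_le.1 (hn₀ n ((le_max_left _ _).trans (le_max_left _ _)))
  have hl := hn₁ n ((le_max_right _ _).trans (le_max_left _ _))
  obtain ⟨r, hr⟩ := Nat.exists_eq_add_of_le hnk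
  have hq := D.qg k r
  rw [← hr] at hq
  have hMn := hM _ (hc_conj_stay hp n)
  have htn : (t : LG K) ^ n = t ^ k * t ^ r := by rw [hr, pow_add]
  have htn' : (t : LG K) ^ n = t ^ r * t ^ k := by rw [hr, add_comm, pow_add]
  -- first step
  have s1 : ℓ.l (f * (t ^ k)⁻¹) ≤ ℓ.l (t ^ k) + 4 * δ := by
    have a := D.H.fp ((f * (t ^ k)⁻¹)⁻¹ * f) ((f * (t ^ k)⁻¹)⁻¹ * 1)
      ((f * (t ^ k)⁻¹)⁻¹ * (f * (t ^ n)⁻¹))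
    have e1 : ((f * ((t : LG K) ^ k)⁻¹)⁻¹ * f)⁻¹ * ((f * (t ^ k)⁻¹)⁻¹ * (f * (t ^ n)⁻¹)) =
        (t ^ n)⁻¹ := by group
    have e2 : (f * ((t : LG K) ^ k)⁻¹)⁻¹ * 1 = (f * (t ^ k)⁻¹)⁻¹ := by group
    have e3 : ((f * ((t : LG K) ^ k)⁻¹)⁻¹ * f)⁻¹ * ((f * (t ^ k)⁻¹)⁻¹) = f⁻¹ := by group
    have e4 : (f * ((t : LG K) ^ k)⁻¹)⁻¹ * (f * (t ^ n)⁻¹) = (t ^ r)⁻¹ := by
      rw [htn']; group
    have e5 : (f * ((t : LG K) ^ k)⁻¹)⁻¹⁻¹ * (t ^ r)⁻¹ = f * (t ^ n)⁻¹ := by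
      rw [htn']; group
    have e6 : (f * ((t : LG K) ^ k)⁻¹)⁻¹ * f = t ^ k := by group
    rw [e1, e2, e3, e4, e5, e6] at a
    simp only [ℓ.inv] at a
    have b1 := ℓ.le_mul_left f (t ^ k)⁻¹
    rw [ℓ.inv] at b1
    rcases a with a | a
    · exfalso
      linarith
    · linarith [hb.2]
  -- second step
  have s2 : ℓ.l (t ^ k * (f * (t ^ n)⁻¹)) ≤ ℓ.l (t ^ r) + 4 * δ := by
    have a := D.H.fp (t ^ k)⁻¹ (t ^ n)⁻¹ (f * (t ^ n)⁻¹)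
    have e1 : ((t : LG K) ^ k)⁻¹⁻¹ * (t ^ n)⁻¹ = (t ^ r)⁻¹ := by
      rw [htn']; group
    have e2 : ((t : LG K) ^ n)⁻¹⁻¹ * (f * (t ^ n)⁻¹) = t ^ n * f * (t ^ n)⁻¹ := by group
    rw [e1, e2] at a
    simp only [ℓ.inv, inv_inv] at a
    rcases a with a | a
    · linarith [hb.2]
    · exfalso
      have := ℓ.nonneg (t ^ k * (f * (t ^ n)⁻¹))
      have := ℓ.nonneg ((t : LG K) ^ k)
      linarith
  -- third step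
  have a := D.H.fp (t ^ k)⁻¹ (f * (t ^ n)⁻¹) (f * (t ^ k)⁻¹)
  have e1 : ((t : LG K) ^ k)⁻¹⁻¹ * (f * (t ^ k)⁻¹) = t ^ k * f * (t ^ k)⁻¹ := by group
  have e2 : (f * ((t : LG K) ^ n)⁻¹)⁻¹ * (f * (t ^ k)⁻¹) = t ^ r := by
    rw [htn']; group
  rw [e1, e2, inv_inv, ℓ.inv] at a
  rcases a with a | a
  · linarith [hb.1]
  · linarith [hb.1]

end Pool.Agent.L0h58.QP
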