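import Mathlib
import Pool.Agent.L0h58.QP.Lamp

set_option autoImplicit false

/-!
Word lengths with respect to a generating set.
-/

open Pointwise

namespace Pool.Agent.L0h58.QP

variable {G : Type} [Group G]

/-- word length -/
noncomputable def wl (S : Set G) (g : G) : ℕ := sInf {n : ℕ | g ∈ (S ∪ S⁻¹) ^ n}

theorem mem_pow_inv {S : Set G} {g : G} {n : ℕ} (h : g ∈ (S ∪ S⁻¹) ^ n) :
    g⁻¹ ∈ (S ∪ S⁻¹) ^ n := by
  have e : (S ∪ S⁻¹) = (S ∪ S⁻¹)⁻¹ := by
    rw [Set.union_inv, inv_inv, Set.union_comm]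
  rw [e, inv_pow, Set.inv_mem_inv]
  exact h

theorem exists_mem_pow {S : Set G} (hS : Subgroup.closure S = ⊤) (g : G) :
    ∃ n : ℕ, g ∈ (S ∪ S⁻¹) ^ n := by
  have hg : g ∈ Subgroup.closure S := by rw [hS]; trivial
  induction hg using Subgroup.closure_induction with
  | mem x hx => exact ⟨1, by rw [pow_one]; exact Or.inl hx⟩
  | one => exact ⟨0, by rw [pow_zero]; exact Set.mem_one.2 rfl⟩
  | mul x y _ _ hx hy =>
    obtain ⟨n, hn⟩ := hx
    obtain ⟨m, hm⟩ := hy
    exact ⟨n + m, by rw [pow_add]; exact Set.mul_mem_mul hn hm⟩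
  | inv x _ hx =>
    obtain ⟨n, hn⟩ := hx
    exact ⟨n, mem_pow_inv hn⟩

theorem wl_spec {S : Set G} (hS : Subgroup.closure S = ⊤) (g : G) :
    g ∈ (S ∪ S⁻¹) ^ (wl S g) := Nat.sInf_mem (exists_mem_pow hS g)

theorem wl_le {S : Set G} {g : G} {n : ℕ} (h : g ∈ (S ∪ S⁻¹) ^ n) : wl S g ≤ n := Nat.sInf_le h

theorem wl_one (S : Set G) : wl S 1 = 0 :=
  Nat.le_zero.1 (wl_le (by rw [pow_zero]; exact Set.mem_one.2 rfl))

theorem wl_inv (S : Set G) (g : G) : wl S g⁻¹ = wl S g := by
  unfold wl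
  congr 1
  ext n
  constructor
  · intro h
    have := mem_pow_inv (S := S) (g := g⁻¹) h
    rwa [inv_inv] at this
  · intro h
    exact mem_pow_inv h

theorem wl_mul {S : Set G} (hS : Subgroup.closure S = ⊤) (g h : G) :
    wl S (g * h) ≤ wl S g + wl S h :=
  wl_le (by rw [pow_add]; exact Set.mul_mem_mul (wl_spec hS g) (wl_spec hS h))

theorem wl_mem {S : Set G} {g : G} (h : g ∈ S) : wl S g ≤ 1 :=
  wl_le (by rw [pow_one]; exact Or.inl h)

/-- the word length as a length function -/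
noncomputable def wLen {S : Set G} (hS : Subgroup.closure S = ⊤) : Len G where
  l g := wl S g
  one := by rw [wl_one]; simp
  inv g := by rw [wl_inv]
  mul g h := by exact_mod_cast wl_mul hS g h

theorem wLen_l {S : Set G} (hS : Subgroup.closure S = ⊤) (g : G) : (wLen hS).l g = wl S g := rfl

/-- a function that is subadditive, symmetric and at most one on generators is bounded by the
word length -/
theorem le_wl {S : Set G} (hS : Subgroup.closure S = ⊤) (D : G → ℤ) (h1 : D 1 = 0)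
    (hi : ∀ g, D g⁻¹ = D g) (hm : ∀ g h, D (g * h) ≤ D g + D h) (hs : ∀ g ∈ S, D g ≤ 1) (g : G) :
    D g ≤ wl S g := by
  have key : ∀ n : ℕ, ∀ g : G, g ∈ (S ∪ S⁻¹) ^ n → D g ≤ n := by
    intro n
    induction n with
    | zero =>
      intro g hg
      rw [pow_zero] at hg
      rw [Set.mem_one.1 hg, h1]
      simp
    | succ n ih =>
      intro g hg
      rw [pow_succ] at hg
      obtain ⟨a, ha, b, hb, rfl⟩ := Set.mem_mul.1 hg
      have h2 := ih a ha
      have h3 : D b ≤ 1 := by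
        rcases hb with hb | hb
        · exact hs b hb
        · have := hs b⁻¹ (Set.mem_inv.1 hb)
          rwa [hi] at this
      have := hm a b
      push_cast
      linarith
  exact key _ g (wl_spec hS g)

end Pool.Agent.L0h58.QP
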