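import Mathlib
import Pool.Agent.L0h58.QP.WLen

set_option autoImplicit false

/-!
The tree-like metric on `LG K`.
-/

open Pointwise

namespace Pool.Agent.L0h58.QP

open LG

variable {K : Type} [Group K]

/-- `x` and `y` agree up to a constant before `-P`, and both have height at least `-P` -/
def Rel (P : ℤ) (x y : LG K) : Prop :=
  (∃ c, ∀ m < -P, (x.f m)⁻¹ * y.f m = c) ∧ -P ≤ x.n ∧ -P ≤ y.n

theorem Rel.symm {P : ℤ} {x y : LG K} (h : Rel P x y) : Rel P y x := by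
  obtain ⟨⟨c, hc⟩, h1, h2⟩ := h
  refine ⟨⟨c⁻¹, fun m hm => ?_⟩, h2, h1⟩
  rw [← hc m hm]
  group

theorem Rel.trans {P : ℤ} {x y z : LG K} (h : Rel P x y) (h' : Rel P y z) : Rel P x z := by
  obtain ⟨⟨c, hc⟩, h1, h2⟩ := h
  obtain ⟨⟨c', hc'⟩, h1', h2'⟩ := h'
  refine ⟨⟨c * c', fun m hm => ?_⟩, h1, h2'⟩
  rw [← hc m hm, ← hc' m hm]
  group

theorem Rel.mono {P Q : ℤ} {x y : LG K} (h : Rel P x y) (hPQ : P ≤ Q) : Rel Q x y := by
  obtain ⟨⟨c, hc⟩, h1, h2⟩ := h
  exact ⟨⟨c, fun m hm => hc m (by omega)⟩, by omega, by omega⟩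

theorem exists_rel (x y : LG K) : ∃ P : ℤ, Rel P x y := by
  obtain ⟨N, c, h⟩ := x.ev
  obtain ⟨N', c', h'⟩ := y.ev
  refine ⟨max (max (-N) (-N')) (max (-x.n) (-y.n)), ⟨c⁻¹ * c', fun m hm => ?_⟩, by omega, by omega⟩
  rw [h m (by omega), h' m (by omega)]

/-- the height at which `x` and `y` merge -/
noncomputable def hh (x y : LG K) : ℤ := sInf {P : ℤ | Rel P x y}

theorem rel_bdd (x y : LG K) : BddBelow {P : ℤ | Rel P x y} :=
  ⟨-x.n, fun P hP => by have := hP.2.1; omega⟩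

theorem hh_spec (x y : LG K) : Rel (hh x y) x y := Int.csInf_mem (exists_rel x y) (rel_bdd x y)

theorem hh_le_iff (x y : LG K) (P : ℤ) : hh x y ≤ P ↔ Rel P x y :=
  ⟨fun h => (hh_spec x y).mono h, fun h => csInf_le (rel_bdd x y) h⟩

theorem hh_comm (x y : LG K) : hh x y = hh y x :=
  le_antisymm ((hh_le_iff _ _ _).2 (hh_spec y x).symm) ((hh_le_iff _ _ _).2 (hh_spec x y).symm)

theorem hh_tri (x y z : LG K) : hh x z ≤ max (hh x y) (hh y z) :=
  (hh_le_iff _ _ _).2 (((hh_spec x y).mono (le_max_left _ _)).trans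
    ((hh_spec y z).mono (le_max_right _ _)))

theorem hh_ge_left (x y : LG K) : -x.n ≤ hh x y := by
  have := (hh_spec x y).2.1
  omega

theorem hh_ge_right (x y : LG K) : -y.n ≤ hh x y := by
  have := (hh_spec x y).2.2
  omega

theorem rel_smul (g x y : LG K) (P : ℤ) : Rel P (g * x) (g * y) ↔ Rel (P + g.n) x y := by
  constructor
  · rintro ⟨⟨c, hc⟩, h1, h2⟩
    rw [mul_n] at h1 h2
    refine ⟨⟨c, fun m hm => ?_⟩, by omega, by omega⟩
    have := hc (m + g.n) (by omega)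
    rw [mul_f, mul_f, add_sub_cancel_right] at this
    rw [← this]
    group
  · rintro ⟨⟨c, hc⟩, h1, h2⟩
    refine ⟨⟨c, fun m hm => ?_⟩, by rw [mul_n]; omega, by rw [mul_n]; omega⟩
    rw [← hc (m - g.n) (by omega), mul_f, mul_f]
    group

theorem hh_smul (g x y : LG K) : hh (g * x) (g * y) = hh x y - g.n := by
  apply le_antisymm
  · rw [hh_le_iff, rel_smul, sub_add_cancel]
    exact hh_spec x y
  · have h : hh x y ≤ hh (g * x) (g * y) + g.n := by
      rw [hh_le_iff, ← rel_smul]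
      exact hh_spec _ _
    omega

/-- the length -/
noncomputable def DD (g : LG K) : ℤ := 2 * hh 1 g + g.n

theorem hh_one_ge (g : LG K) : 0 ≤ hh 1 g := by
  have := hh_ge_left 1 g
  simpa using this

theorem DD_eq (x y : LG K) : DD (x⁻¹ * y) = 2 * hh x y + x.n + y.n := by
  unfold DD
  have : hh 1 (x⁻¹ * y) = hh x y + x.n := by
    have := hh_smul x⁻¹ x y
    rw [inv_mul_cancel, inv_n] at this
    omega
  rw [this, mul_n, inv_n]
  omega

theorem DD_one : DD (1 : LG K) = 0 := by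
  unfold DD
  have h1 : hh (1 : LG K) 1 ≤ 0 := by
    rw [hh_le_iff]
    exact ⟨⟨1, fun m _ => by simp⟩, by simp, by simp⟩
  have h2 := hh_one_ge (1 : LG K)
  rw [one_n]
  omega

theorem DD_inv (g : LG K) : DD g⁻¹ = DD g := by
  have h1 := DD_eq g 1
  have h2 := DD_eq 1 g
  rw [mul_one] at h1
  rw [inv_one, one_mul] at h2
  rw [h1, h2, hh_comm g 1, one_n]
  omega

theorem DD_mul (g h : LG K) : DD (g * h) ≤ DD g + DD h := by
  have h1 := DD_eq g⁻¹ h
  rw [inv_inv] at h1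
  have h2 := DD_inv g
  have h3 := hh_tri g⁻¹ 1 h
  have h4 := hh_comm g⁻¹ 1
  have h5 := hh_ge_right 1 g⁻¹
  have h6 := hh_ge_right 1 h
  have h7 := hh_one_ge g⁻¹
  have h8 := hh_one_ge h
  unfold DD at h1 h2 ⊢
  rw [inv_n] at *
  omega

/-- the generating set -/
def XX (K : Type) [Group K] : Set (LG K) := {g | Hc 0 g} ∪ {t}

theorem DD_gen (g : LG K) (hg : g ∈ XX K) : DD g ≤ 1 := by
  rcases hg with hg | hg
  · obtain ⟨h1, c, h2⟩ := hg
    have h3 : hh 1 g ≤ 0 := by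
      rw [hh_le_iff]
      refine ⟨⟨c, fun m hm => ?_⟩, by simp, by simp [h1]⟩
      rw [h2 m (by omega)]
      simp
    unfold DD
    omega
  · rw [Set.mem_singleton_iff] at hg
    subst hg
    have h3 : hh 1 (t : LG K) ≤ 0 := by
      rw [hh_le_iff]
      exact ⟨⟨1, fun m hm => by simp⟩, by simp, by simp⟩
    unfold DD
    rw [t_n]
    omega

/-- decomposition of an element -/
theorem exists_dec (g : LG K) : ∃ (h : LG K) (a b : ℕ), Hc 0 h ∧ g = (t ^ a)⁻¹ * h * t ^ b ∧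
    ((a : ℤ) + b = DD g) := by
  have h1 := hh_one_ge g
  have h2 := hh_ge_right 1 g
  obtain ⟨⟨c, hc⟩, -, -⟩ := hh_spec 1 g
  set p := hh 1 g with hp
  obtain ⟨a, ha⟩ := Int.eq_ofNat_of_zero_le h1
  obtain ⟨b, hb⟩ := Int.eq_ofNat_of_zero_le (show 0 ≤ p + g.n by omega)
  refine ⟨t ^ a * g * (t ^ b)⁻¹, a, b, ⟨?_, c, fun m hm => ?_⟩, by group, ?_⟩
  · simp only [mul_n, tpow_n, inv_n]
    omega
  · have := hc (m - a) (by omega)
    rw [one_f, inv_one, one_mul] at this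
    simp only [mul_f, mul_n, tpow_n, inv_f, tpow_f, one_mul, inv_one, mul_one]
    exact this
  · unfold DD
    omega

theorem closure_XX : Subgroup.closure (XX K) = ⊤ := by
  rw [eq_top_iff]
  intro g _
  obtain ⟨h, a, b, hh, rfl, -⟩ := exists_dec g
  have ht : (t : LG K) ∈ Subgroup.closure (XX K) := Subgroup.subset_closure (Or.inr rfl)
  exact mul_mem (mul_mem (inv_mem (pow_mem ht a)) (Subgroup.subset_closure (Or.inl hh)))
    (pow_mem ht b)

theorem wl_tpow (S : Set (LG K)) (hS : Subgroup.closure S = ⊤) (ht : (t : LG K) ∈ S) (k : ℕ) :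
    wl S (t ^ k) ≤ k := by
  induction k with
  | zero => rw [pow_zero, wl_one]
  | succ k ih =>
    rw [pow_succ]
    have := wl_mul hS (t ^ k) t
    have := wl_mem ht
    omega

theorem wl_XX_ge (g : LG K) : DD g ≤ wl (XX K) g :=
  le_wl closure_XX DD DD_one DD_inv DD_mul DD_gen g

theorem wl_XX_le (g : LG K) : (wl (XX K) g : ℤ) ≤ DD g + 1 := by
  obtain ⟨h, a, b, hh, hg, hab⟩ := exists_dec g
  have ht : (t : LG K) ∈ XX K := Or.inr rfl
  have h1 := wl_mul closure_XX ((t ^ a)⁻¹ * h) (t ^ b)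
  have h2 := wl_mul closure_XX ((t ^ a)⁻¹) h
  have h3 := wl_tpow (XX K) closure_XX ht a
  have h4 := wl_tpow (XX K) closure_XX ht b
  have h5 := wl_mem (S := XX K) (g := h) (Or.inl hh)
  rw [wl_inv] at h2
  rw [← hg] at h1
  omega

/-- the four point condition for `hh` -/
theorem hh_four (x y z w : LG K) :
    hh x y + hh z w ≤ max (hh x z + hh y w) (hh x w + hh y z) := by
  have a1 := hh_tri x z y
  have a2 := hh_tri x w y
  have a3 := hh_tri z x w
  have a4 := hh_tri z y w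
  have c1 := hh_comm z y
  have c2 := hh_comm w y
  have c3 := hh_comm z x
  omega

theorem DD_hyp (x y z : LG K) :
    min (DD x + DD y - DD (x⁻¹ * y)) (DD y + DD z - DD (y⁻¹ * z)) ≤ DD x + DD z - DD (x⁻¹ * z) := by
  rw [DD_eq, DD_eq, DD_eq]
  have h := hh_four x z 1 y
  have c1 := hh_comm x 1
  have c2 := hh_comm z 1
  have c3 := hh_comm z y
  unfold DD
  omega

end Pool.Agent.L0h58.QP
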