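import Mathlib
import Pool.Agent.L0h58.QP.TreeX

set_option autoImplicit false

/-!
The generating set `XX K` is quasi-parabolic.
-/

open Pointwise

namespace Pool.Agent.L0h58.QP

open LG

section defs

variable {G : Type} [Group G]

/-- Gromov product -/
noncomputable def gpw (S : Set G) (a b : G) : ℝ :=
  ((wl S a : ℝ) + (wl S b : ℝ) - (wl S (a⁻¹ * b) : ℝ)) / 2

/-- loxodromic -/
def Lox (S : Set G) (g : G) : Prop :=
  ∃ c : ℝ, 0 < c ∧ ∀ n : ℕ, c * (n : ℝ) ≤ (wl S (g ^ n) : ℝ)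

/-- same attracting point -/
def SameEnd (S : Set G) (a b : G) : Prop :=
  ∀ K : ℝ, ∃ N : ℕ, ∀ n m : ℕ, N ≤ n → N ≤ m → K ≤ gpw S (a ^ n) (b ^ m)

/-- quasi-parabolic -/
def QPar (S : Set G) : Prop :=
  Subgroup.closure S = ⊤ ∧
         (∃ δ : ℝ, ∀ x y z : G, min (gpw S x y) (gpw S y z) - δ ≤ gpw S x z) ∧
         (∃ g h : G, Lox S g ∧ Lox S h ∧
            ¬ ((SameEnd S g h ∧ SameEnd S g⁻¹ h⁻¹) ∨
               (SameEnd S g h⁻¹ ∧ SameEnd S g⁻¹ h))) ∧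
         (∀ g h : G, Lox S g → Lox S h →
            (SameEnd S g h ∨ SameEnd S g h⁻¹ ∨ SameEnd S g⁻¹ h ∨ SameEnd S g⁻¹ h⁻¹))

end defs

variable {K : Type} [Group K]

theorem n_pow (g : LG K) (k : ℕ) : (g ^ k).n = k * g.n := by
  induction k with
  | zero => simp
  | succ k ih => rw [pow_succ, mul_n, ih]; push_cast; ring

/-- `gpw` for `XX K` in terms of `hh` -/
theorem gpw_ge (x y : LG K) : ((hh 1 x + hh 1 y - hh x y : ℤ) : ℝ) - 1 ≤ gpw (XX K) x y := by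
  have h1 := wl_XX_ge x
  have h2 := wl_XX_ge y
  have h3 := wl_XX_le (x⁻¹ * y)
  have h4 := DD_eq x y
  unfold DD at h1 h2
  unfold gpw
  have h5 : 2 * (hh 1 x + hh 1 y - hh x y) - 1 ≤
    (wl (XX K) x : ℤ) + wl (XX K) y - wl (XX K) (x⁻¹ * y) := by omega
  have h6 : ((2 * (hh 1 x + hh 1 y - hh x y) - 1 : ℤ) : ℝ) ≤
    (((wl (XX K) x : ℤ) + wl (XX K) y - wl (XX K) (x⁻¹ * y) : ℤ) : ℝ) := by exact_mod_cast h5
  push_cast at h6 ⊢
  linarith

theorem gpw_le (x y : LG K) : gpw (XX K) x y ≤ ((hh 1 x + hh 1 y - hh x y : ℤ) : ℝ) + 1 := by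
  have h1 := wl_XX_le x
  have h2 := wl_XX_le y
  have h3 := wl_XX_ge (x⁻¹ * y)
  have h4 := DD_eq x y
  unfold DD at h1 h2
  unfold gpw
  have h5 : (wl (XX K) x : ℤ) + wl (XX K) y - wl (XX K) (x⁻¹ * y) ≤
    2 * (hh 1 x + hh 1 y - hh x y) + 2 := by omega
  have h6 : (((wl (XX K) x : ℤ) + wl (XX K) y - wl (XX K) (x⁻¹ * y) : ℤ) : ℝ) ≤
    ((2 * (hh 1 x + hh 1 y - hh x y) + 2 : ℤ) : ℝ) := by exact_mod_cast h5
  push_cast at h6 ⊢
  linarith

theorem hyp_XX (x y z : LG K) :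
    min (gpw (XX K) x y) (gpw (XX K) y z) - 2 ≤ gpw (XX K) x z := by
  have h1 := gpw_le x y
  have h2 := gpw_le y z
  have h3 := gpw_ge x z
  have h := DD_hyp x y z
  rw [DD_eq, DD_eq, DD_eq] at h
  unfold DD at h
  have h5 : min (hh 1 x + hh 1 y - hh x y) (hh 1 y + hh 1 z - hh y z) ≤
    hh 1 x + hh 1 z - hh x z := by omega
  rcases min_le_iff.1 h5 with h6 | h6
  · have h7 : ((hh 1 x + hh 1 y - hh x y : ℤ) : ℝ) ≤ ((hh 1 x + hh 1 z - hh x z : ℤ) : ℝ) := by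
      exact_mod_cast h6
    have := min_le_left (gpw (XX K) x y) (gpw (XX K) y z)
    linarith
  · have h7 : ((hh 1 y + hh 1 z - hh y z : ℤ) : ℝ) ≤ ((hh 1 x + hh 1 z - hh x z : ℤ) : ℝ) := by
      exact_mod_cast h6
    have := min_le_right (gpw (XX K) x y) (gpw (XX K) y z)
    linarith

theorem lox_of_ne (g : LG K) (hg : g.n ≠ 0) : Lox (XX K) g := by
  refine ⟨1, one_pos, fun k => ?_⟩
  have h1 := wl_XX_ge (g ^ k)
  have h2 := hh_one_ge (g ^ k)
  have h3 := hh_ge_right 1 (g ^ k)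
  unfold DD at h1
  rw [n_pow] at h1 h3
  have h4 : (k : ℤ) ≤ wl (XX K) (g ^ k) := by
    rcases lt_or_gt_of_ne hg with h | h
    · have : (k : ℤ) * g.n ≤ k * (-1) := mul_le_mul_of_nonneg_left (by omega) (by positivity)
      omega
    · have : (k : ℤ) * 1 ≤ k * g.n := mul_le_mul_of_nonneg_left (by omega) (by positivity)
      omega
  rw [one_mul]
  exact_mod_cast h4

theorem n_ne_of_lox (g : LG K) (hg : Lox (XX K) g) : g.n ≠ 0 := by
  intro h0
  obtain ⟨c, hc, h⟩ := hg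
  obtain ⟨p, hp⟩ := exists_hc g h0
  obtain ⟨k, hk⟩ := exists_nat_gt (((2 * p + 1 : ℕ) : ℝ) / c)
  rw [div_lt_iff₀ hc] at hk
  have h1 := wl_XX_le (g ^ k)
  have h2 : hh 1 (g ^ k) ≤ p := by
    rw [hh_le_iff]
    obtain ⟨h3, c', h4⟩ := hp.pow k
    refine ⟨⟨c', fun m hm => ?_⟩, by simp, by omega⟩
    rw [h4 m hm]
    simp
  unfold DD at h1
  have h5 : (g ^ k).n = 0 := (hp.pow k).1
  have h6 : wl (XX K) (g ^ k) ≤ 2 * p + 1 := by omega
  have h7 : (wl (XX K) (g ^ k) : ℝ) ≤ ((2 * p + 1 : ℕ) : ℝ) := by exact_mod_cast h6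
  have h8 := h k
  linarith

theorem same_neg (g h : LG K) (hg : g.n < 0) (hh' : h.n < 0) : SameEnd (XX K) g h := by
  intro R
  obtain ⟨N, hN⟩ := exists_nat_gt (R + 1)
  refine ⟨N, fun n m hn hm => ?_⟩
  have h1 := gpw_ge (g ^ n) (h ^ m)
  have h2 := hh_tri (g ^ n) 1 (h ^ m)
  have h3 := hh_ge_right 1 (g ^ n)
  have h4 := hh_ge_right 1 (h ^ m)
  have h5 := hh_comm (g ^ n) 1
  rw [n_pow] at h3 h4
  have h6 : (n : ℤ) * g.n ≤ n * (-1) := mul_le_mul_of_nonneg_left (by omega) (by positivity)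
  have h7 : (m : ℤ) * h.n ≤ m * (-1) := mul_le_mul_of_nonneg_left (by omega) (by positivity)
  have h8 : (N : ℤ) ≤ hh 1 (g ^ n) + hh 1 (h ^ m) - hh (g ^ n) (h ^ m) := by omega
  have h9 : ((N : ℤ) : ℝ) ≤ ((hh 1 (g ^ n) + hh 1 (h ^ m) - hh (g ^ n) (h ^ m) : ℤ) : ℝ) := by
    exact_mod_cast h8
  rw [Int.cast_natCast] at h9
  linarith

/-- the function supported at `0` with value `a` -/
noncomputable def spk (a : K) : LG K := by
  classical
  exact ⟨fun i => if i = 0 then a else 1, 0, 0, 1, fun m hm => if_neg (by omega)⟩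

open Classical in
theorem spk_f (a : K) (i : ℤ) : (spk a).f i = if i = 0 then a else 1 := rfl

theorem spk_n (a : K) : (spk a).n = 0 := rfl

theorem st_n (a : K) : (spk a * t).n = 1 := by rw [mul_n, spk_n, t_n, zero_add]

theorem st_f_neg (a : K) (m : ℕ) (i : ℤ) (hi : i < 0) : ((spk a * t) ^ m).f i = 1 := by
  induction m with
  | zero => simp
  | succ m ih =>
    rw [pow_succ, mul_f, ih, mul_f, spk_f, t_f, mul_one, one_mul, if_neg]
    rw [n_pow, st_n]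
    omega

theorem st_f_zero (a : K) (m : ℕ) (hm : 1 ≤ m) : ((spk a * t) ^ m).f 0 = a := by
  obtain ⟨m, rfl⟩ := Nat.exists_eq_add_of_le hm
  induction m with
  | zero => simp [spk_f]
  | succ m ih =>
    rw [← add_assoc, pow_succ, mul_f, ih (by omega), mul_f, spk_f, t_f, mul_one, if_neg, mul_one]
    rw [n_pow, st_n]
    push_cast
    omega

theorem hh_one_st (a : K) (m : ℕ) : hh 1 ((spk a * t) ^ m) = 0 := by
  apply le_antisymm
  · rw [hh_le_iff]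
    refine ⟨⟨1, fun i hi => ?_⟩, by simp, ?_⟩
    · rw [st_f_neg a m i (by omega)]
      simp
    · rw [n_pow, st_n]
      omega
  · exact hh_one_ge _

theorem hh_one_t (m : ℕ) : hh 1 ((t : LG K) ^ m) = 0 := by
  apply le_antisymm
  · rw [hh_le_iff]
    refine ⟨⟨1, fun i hi => ?_⟩, by simp, ?_⟩
    · simp
    · simp
  · exact hh_one_ge _

theorem not_same_1 (a : K) (ha : a ≠ 1) : ¬ SameEnd (XX K) t (spk a * t) := by
  intro h
  obtain ⟨N, hN⟩ := h 2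
  have h1 := hN (N + 1) (N + 1) (by omega) (by omega)
  have h2 := gpw_le (t ^ (N + 1)) ((spk a * t) ^ (N + 1))
  rw [hh_one_st, hh_one_t] at h2
  have h3 : 0 ≤ hh (t ^ (N + 1)) ((spk a * t) ^ (N + 1)) := by
    by_contra hcon
    push Not at hcon
    have h4 : Rel (-1) (t ^ (N + 1)) ((spk a * t) ^ (N + 1)) := by
      rw [← hh_le_iff]; omega
    obtain ⟨⟨c, hc⟩, -, -⟩ := h4
    have h5 := hc 0 (by omega)
    have h6 := hc (-1) (by omega)
    rw [st_f_zero a _ (by omega)] at h5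
    rw [st_f_neg a _ _ (by omega)] at h6
    rw [← h6] at h5
    simp at h5
    exact ha h5
  have h4 : ((0 + 0 - hh (t ^ (N + 1)) ((spk a * t) ^ (N + 1)) : ℤ) : ℝ) ≤ 0 := by
    exact_mod_cast (by omega : 0 + 0 - hh (t ^ (N + 1)) ((spk a * t) ^ (N + 1)) ≤ 0)
  linarith

theorem not_same_2 (a : K) : ¬ SameEnd (XX K) t (spk a * t)⁻¹ := by
  intro h
  obtain ⟨N, hN⟩ := h 2
  have h1 := hN (N + 1) (N + 1) (by omega) (by omega)
  have h2 := gpw_le (t ^ (N + 1)) ((spk a * t)⁻¹ ^ (N + 1))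
  have h3 : hh 1 ((spk a * t)⁻¹ ^ (N + 1)) = (N + 1 : ℕ) := by
    rw [inv_pow]
    have h4 := DD_inv ((spk a * t) ^ (N + 1))
    unfold DD at h4
    rw [hh_one_st, inv_n, n_pow, st_n] at h4
    push_cast at h4 ⊢
    omega
  have h5 := hh_ge_right (t ^ (N + 1)) ((spk a * t)⁻¹ ^ (N + 1))
  rw [n_pow, inv_n, st_n] at h5
  rw [hh_one_t, h3] at h2
  have h6 : ((0 + (N + 1 : ℕ) - hh (t ^ (N + 1)) ((spk a * t)⁻¹ ^ (N + 1)) : ℤ) : ℝ) ≤ 0 := by
    have : (0 + (N + 1 : ℕ) - hh (t ^ (N + 1)) ((spk a * t)⁻¹ ^ (N + 1)) : ℤ) ≤ 0 := by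
      push_cast at h5 ⊢
      omega
    exact_mod_cast this
  linarith

theorem qpar_XX [Nontrivial K] : QPar (XX K) := by
  refine ⟨closure_XX, ⟨2, hyp_XX⟩, ?_, ?_⟩
  · obtain ⟨a, ha⟩ := exists_ne (1 : K)
    refine ⟨t, spk a * t, lox_of_ne _ (by simp), lox_of_ne _ (by rw [st_n]; simp), ?_⟩
    rintro (⟨h, -⟩ | ⟨h, -⟩)
    · exact not_same_1 a ha h
    · exact not_same_2 a h
  · intro g h hg hh'
    have h1 := n_ne_of_lox g hg
    have h2 := n_ne_of_lox h hh'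
    rcases lt_or_gt_of_ne h1 with h1 | h1
    · rcases lt_or_gt_of_ne h2 with h2 | h2
      · exact Or.inl (same_neg g h h1 h2)
      · exact Or.inr (Or.inl (same_neg g h⁻¹ h1 (by rw [inv_n]; omega)))
    · rcases lt_or_gt_of_ne h2 with h2 | h2
      · exact Or.inr (Or.inr (Or.inl (same_neg g⁻¹ h (by rw [inv_n]; omega) h2)))
      · exact Or.inr (Or.inr (Or.inr (same_neg g⁻¹ h⁻¹ (by rw [inv_n]; omega)
          (by rw [inv_n]; omega))))

end Pool.Agent.L0h58.QP
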