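import Mathlib
import Pool.Agent.L0h58.QP.Geo

set_option autoImplicit false

/-!
Uniqueness, second part.
-/

namespace Pool.Agent.L0h58.QP

open LG

variable {K : Type} [Group K] {ℓ : Len (LG K)} {δ E : ℝ}

/-- elements whose conjugates by `t ^ j`, `j ≥ k`, are short -/
def Qs (ℓ : Len (LG K)) (δ E : ℝ) (k : ℕ) (f : LG K) : Prop :=
  f.n = 0 ∧ ∀ j, k ≤ j → ℓ.l (t ^ j * f * (t ^ j)⁻¹) ≤ 2 * E + 12 * δ

theorem Qs.mono {k k' : ℕ} {f : LG K} (h : Qs ℓ δ E k f) (hk : k ≤ k') : Qs ℓ δ E k' f :=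
  ⟨h.1, fun j hj => h.2 j (hk.trans hj)⟩

theorem Qs.inv {k : ℕ} {f : LG K} (h : Qs ℓ δ E k f) : Qs ℓ δ E k f⁻¹ := by
  refine ⟨by simp [h.1], fun j hj => ?_⟩
  have e : (t : LG K) ^ j * f⁻¹ * (t ^ j)⁻¹ = (t ^ j * f * (t ^ j)⁻¹)⁻¹ := by group
  rw [e, ℓ.inv]
  exact h.2 j hj

theorem Qs.shift {k i : ℕ} {f : LG K} (h : Qs ℓ δ E (k + i) f) :
    Qs ℓ δ E k (t ^ i * f * (t ^ i)⁻¹) := by
  refine ⟨by rw [conj_n, h.1], fun j hj => ?_⟩
  have e : (t : LG K) ^ j * (t ^ i * f * (t ^ i)⁻¹) * (t ^ j)⁻¹ =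
      t ^ (j + i) * f * (t ^ (j + i))⁻¹ := by
    rw [pow_add]; group
  rw [e]
  exact h.2 _ (by omega)

theorem Dat.exists_Qs (D : Dat ℓ δ E) (B : ℝ) :
    ∃ k : ℕ, ∀ f : LG K, f.n = 0 → ℓ.l f ≤ B → Qs ℓ δ E k f := by
  obtain ⟨k₀, hk₀⟩ := D.large (B + E + δ)
  exact ⟨k₀, fun f hf hB => ⟨hf, fun j hj => D.contr f hf B hB j (hk₀ j hj)⟩⟩

theorem Dat.Qs_mul (D : Dat ℓ δ E) :
    ∃ κ : ℕ, ∀ (k : ℕ) (f g : LG K), Qs ℓ δ E k f → Qs ℓ δ E k g → Qs ℓ δ E (k + κ) (f * g) := by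
  obtain ⟨κ, hκ⟩ := D.exists_Qs (2 * (2 * E + 12 * δ))
  refine ⟨κ, fun k f g hf hg => ?_⟩
  have hn : (f * g).n = 0 := by rw [mul_n, hf.1, hg.1, add_zero]
  refine ⟨hn, fun j hj => ?_⟩
  have h1 := hf.2 k le_rfl
  have h2 := hg.2 k le_rfl
  have h3 := ℓ.mul (t ^ k * f * (t ^ k)⁻¹) (t ^ k * g * (t ^ k)⁻¹)
  have e : (t : LG K) ^ k * f * (t ^ k)⁻¹ * (t ^ k * g * (t ^ k)⁻¹) = t ^ k * (f * g) * (t ^ k)⁻¹ := by
    group
  rw [e] at h3
  have h4 := (hκ (t ^ k * (f * g) * (t ^ k)⁻¹) (by rw [conj_n, hn]) (by linarith)).2 (j - k)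
    (by omega)
  have e2 : (t : LG K) ^ (j - k) * (t ^ k * (f * g) * (t ^ k)⁻¹) * (t ^ (j - k))⁻¹ =
      t ^ j * (f * g) * (t ^ j)⁻¹ := by
    have : (t : LG K) ^ j = t ^ (j - k) * t ^ k := by rw [← pow_add, Nat.sub_add_cancel (by omega)]
    rw [this]; group
  rwa [e2] at h4

theorem Dat.Qs_one (D : Dat ℓ δ E) : Qs ℓ δ E 0 (1 : LG K) := by
  refine ⟨rfl, fun j _ => ?_⟩
  rw [mul_one, mul_inv_cancel, ℓ.one]
  have := D.E0
  have := D.H.nn
  linarith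

theorem Qs.le {k : ℕ} {f : LG K} (h : Qs ℓ δ E k f) :
    ℓ.l f ≤ 2 * E + 12 * δ + 2 * ℓ.l (t ^ k) := by
  have h1 := h.2 k le_rfl
  have h2 := ℓ.conj_le' (t ^ k) (t ^ k * f * (t ^ k)⁻¹)
  have e : ((t : LG K) ^ k)⁻¹ * (t ^ k * f * (t ^ k)⁻¹) * t ^ k = f := by group
  rw [e] at h2
  linarith

/-- at level `q` every value is attained by a short element -/
def Gen (ℓ : Len (LG K)) (B : ℝ) (q : ℤ) : Prop :=
  ∀ e : K, ∃ y : LG K, Hs q y ∧ y.f q = e ∧ ℓ.l y ≤ B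

theorem Dat.decomp {B : ℝ} {q : ℤ} {b κ : ℕ} (D : Dat ℓ δ E)
    (hb : ∀ f : LG K, f.n = 0 → ℓ.l f ≤ B → Qs ℓ δ E b f)
    (hκ : ∀ (k : ℕ) (f g : LG K), Qs ℓ δ E k f → Qs ℓ δ E k g → Qs ℓ δ E (k + κ) (f * g))
    (hG : Gen ℓ B q) (r : ℕ) (z : LG K) (hz : Hs q z) :
    ∃ u z' : LG K, Qs ℓ δ E (b + r * κ) u ∧ Hs (q + r) z' ∧ z = u * z' := by
  induction r with
  | zero =>
    exact ⟨1, z, D.Qs_one.mono (by omega), by simpa using hz, by rw [one_mul]⟩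
  | succ r ih =>
    obtain ⟨u, z', hu, hz', rfl⟩ := ih
    obtain ⟨y, hy, hye, hyB⟩ := hG (z'.f (q + r))
    set y' := t ^ r * y * (t ^ r)⁻¹ with hy'
    have h1 : Hs (q + r) y' := hy.conj r
    have h2 : y'.f (q + r) = z'.f (q + r) := by
      rw [hy', conj_f, add_sub_cancel_right, hye]
    have h3 : Qs ℓ δ E b y' := ((hb y hy.1 hyB).mono (by omega : b ≤ b + r)).shift
    refine ⟨u * y', y'⁻¹ * z', ?_, ?_, ?_⟩
    · have := hκ (b + r * κ) u y' hu (h3.mono (by omega))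
      refine this.mono ?_
      rw [add_mul, one_mul, add_assoc]
    · have h4 := h1.inv.mul hz'
      refine ⟨h4.1, fun m hm => ?_⟩
      by_cases hm' : m < q + r
      · exact h4.2 m hm'
      · have : m = q + r := by push_cast at hm; omega
        subst this
        rw [mul_f, inv_f, inv_n, h1.1, neg_zero, sub_zero, add_zero, h2, inv_mul_cancel]
    · rw [mul_assoc, mul_inv_cancel_left]

theorem Dat.all_Qs {B : ℝ} {b κ : ℕ} (D : Dat ℓ δ E)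
    (hb : ∀ f : LG K, f.n = 0 → ℓ.l f ≤ B → Qs ℓ δ E b f)
    (hκ : ∀ (k : ℕ) (f g : LG K), Qs ℓ δ E k f → Qs ℓ δ E k g → Qs ℓ δ E (k + κ) (f * g))
    (p : ℕ) (hG : Gen ℓ B (-(p : ℤ))) (z : LG K) (hz : Hs (-(p : ℤ)) z) :
    Qs ℓ δ E (b + (κ + 1) * κ + κ + (κ + 1)) z := by
  set L₀ := b + (κ + 1) * κ + κ + (κ + 1) with hL₀
  obtain ⟨M, hM0, hM⟩ := D.bdd p
  obtain ⟨L₁, hL₁⟩ := D.exists_Qs M
  have key : ∀ j : ℕ, ∀ z : LG K, Hs (-(p : ℤ)) z → Qs ℓ δ E (L₀ + (L₁ - j)) z := by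
    intro j
    induction j with
    | zero =>
      intro z hz
      exact (hL₁ z hz.1 (hM z hz.hc)).mono (by omega)
    | succ j ih =>
      intro z hz
      by_cases hj : L₁ ≤ j
      · refine (ih z hz).mono (by omega)
      · obtain ⟨u, z', hu, hz', rfl⟩ := D.decomp hb hκ hG (κ + 1) z hz
        -- `z' = t ^ (κ+1) z'' t ^ -(κ+1)`
        set z'' := (t ^ (κ + 1))⁻¹ * z' * t ^ (κ + 1) with hz''
        have h1 : Hs (-(p : ℤ)) z'' := by
          have := hz'.conj' (κ + 1)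
          rwa [add_sub_cancel_right] at this
        have h2 := ih z'' h1
        have h3 : Qs ℓ δ E (L₀ + (L₁ - (j + 1)) - κ) z' := by
          have e : L₀ + (L₁ - j) = (L₀ + (L₁ - (j + 1)) - κ) + (κ + 1) := by omega
          rw [e] at h2
          have := h2.shift
          have e2 : (t : LG K) ^ (κ + 1) * z'' * (t ^ (κ + 1))⁻¹ = z' := by
            rw [hz'']; group
          rwa [e2] at this
        have h4 := hκ (L₀ + (L₁ - (j + 1)) - κ) u z' (hu.mono (by omega)) h3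
        exact h4.mono (by omega)
  exact (key L₁ z hz).mono (by omega)

/-- in a finite simple group: short elements with arbitrary values -/
theorem exists_gen [Finite K] [IsSimpleGroup K] (ℓ : Len (LG K)) (B : ℝ) : ∃ B₁ : ℝ,
    ∀ (q : ℤ) (f : LG K), Hs q f → f.f q ≠ 1 → ℓ.l f ≤ B → Gen ℓ B₁ q := by
  have := Fintype.ofFinite K
  have key : ∀ c e : K, ∃ B₁ : ℝ, c ≠ 1 → ∀ (q : ℤ) (f : LG K), Hs q f → f.f q = c → ℓ.l f ≤ B →
      ∃ y : LG K, Hs q y ∧ y.f q = e ∧ ℓ.l y ≤ B₁ := by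
    intro c e
    by_cases hc : c = 1
    · exact ⟨0, fun h => absurd hc h⟩
    have he : e ∈ Subgroup.normalClosure ({c} : Set K) := by
      have hN : (Subgroup.normalClosure ({c} : Set K)) ≠ ⊥ := by
        intro h
        have : c ∈ Subgroup.normalClosure ({c} : Set K) :=
          Subgroup.subset_normalClosure (Set.mem_singleton c)
        rw [h, Subgroup.mem_bot] at this
        exact hc this
      rw [(Subgroup.normalClosure_normal.eq_bot_or_eq_top).resolve_left hN]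
      trivial
    have : ∃ B₁ : ℝ, ∀ (q : ℤ) (f : LG K), Hs q f → f.f q = c → ℓ.l f ≤ B →
      ∃ y : LG K, Hs q y ∧ y.f q = e ∧ ℓ.l y ≤ B₁ := by
      rw [Subgroup.normalClosure] at he
      induction he using Subgroup.closure_induction with
      | mem x hx =>
        rw [Group.mem_conjugatesOfSet_iff] at hx
        obtain ⟨a, ha, hx⟩ := hx
        rw [Set.mem_singleton_iff] at ha
        subst ha
        obtain ⟨s, hs⟩ := isConj_iff.1 hx
        refine ⟨B + 2 * ℓ.l (cst s), fun q f hf hfc hfB => ⟨cst s * f * (cst s)⁻¹, ?_, ?_, ?_⟩⟩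
        · refine ⟨by simp [hf.1], fun m hm => ?_⟩
          simp [hf.1, hf.2 m hm]
        · simp [hf.1, hfc, hs]
        · have := ℓ.conj_le (cst s) f
          linarith
      | one => exact ⟨0, fun q f _ _ _ => ⟨1, Hs.one, rfl, by rw [ℓ.one]⟩⟩
      | mul x y _ _ hx hy =>
        obtain ⟨B₁, h₁⟩ := hx
        obtain ⟨B₂, h₂⟩ := hy
        refine ⟨B₁ + B₂, fun q f hf hfc hfB => ?_⟩
        obtain ⟨y₁, a1, a2, a3⟩ := h₁ q f hf hfc hfB
        obtain ⟨y₂, b1, b2, b3⟩ := h₂ q f hf hfc hfB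
        refine ⟨y₁ * y₂, a1.mul b1, by rw [mul_f, a1.1, sub_zero, a2, b2], ?_⟩
        have := ℓ.mul y₁ y₂
        linarith
      | inv x _ hx =>
        obtain ⟨B₁, h₁⟩ := hx
        refine ⟨B₁, fun q f hf hfc hfB => ?_⟩
        obtain ⟨y₁, a1, a2, a3⟩ := h₁ q f hf hfc hfB
        exact ⟨y₁⁻¹, a1.inv, by rw [inv_f, a1.1, add_zero, a2], by rw [ℓ.inv]; exact a3⟩
    obtain ⟨B₁, h⟩ := this
    exact ⟨B₁, fun _ => h⟩
  choose B₁ hB₁ using key
  refine ⟨∑ c, ∑ e, |B₁ c e|, fun q f hf hfq hfB e => ?_⟩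
  obtain ⟨y, h1, h2, h3⟩ := hB₁ (f.f q) e hfq q f hf rfl hfB
  refine ⟨y, h1, h2, h3.trans ((le_abs_self _).trans ?_)⟩
  refine (Finset.single_le_sum (f := fun e => |B₁ (f.f q) e|) (fun _ _ => abs_nonneg _)
    (Finset.mem_univ e)).trans ?_
  exact Finset.single_le_sum (f := fun c => ∑ e, |B₁ c e|)
    (fun c _ => Finset.sum_nonneg fun e _ => abs_nonneg _) (Finset.mem_univ (f.f q))

/-- an element of height zero which is not constant before `-P` has, up to a constant, a first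
nontrivial value before `-P` -/
theorem exists_first (f : LG K) (hf : f.n = 0) (P : ℕ) (hP : ¬ Hc (-(P : ℤ)) f) :
    ∃ (c : K) (q : ℕ), P ≤ q ∧ Hs (-(q : ℤ)) ((cst c)⁻¹ * f) ∧
      ((cst c)⁻¹ * f).f (-(q : ℤ)) ≠ 1 := by
  classical
  obtain ⟨p, hp⟩ := exists_hc f hf
  obtain ⟨_, c, hc⟩ := hp
  -- the largest `q` such that `f (-q) ≠ c`
  have hex : ∃ q : ℕ, P < q ∧ f.f (-(q : ℤ)) ≠ c := by
    by_contra hcon
    push Not at hcon
    apply hP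
    refine ⟨hf, c, fun m hm => ?_⟩
    have := hcon m.natAbs (by omega)
    rwa [show (-(m.natAbs : ℤ)) = m by omega] at this
  have hbd : ∀ q : ℕ, f.f (-(q : ℤ)) ≠ c → q ≤ p := by
    intro q hq
    by_contra h
    exact hq (hc _ (by omega))
  set q := Nat.findGreatest (fun q => f.f (-(q : ℤ)) ≠ c) p with hq
  obtain ⟨q₀, h1, h2⟩ := hex
  have hq1 : f.f (-(q : ℤ)) ≠ c := Nat.findGreatest_spec (P := fun q : ℕ => f.f (-(q : ℤ)) ≠ c)
    (hbd q₀ h2) h2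
  have hq2 : q₀ ≤ q := Nat.le_findGreatest (hbd q₀ h2) h2
  refine ⟨c, q, by omega, ⟨by simp [hf], fun m hm => ?_⟩, ?_⟩
  · have h3 : f.f m = c := by
      by_contra h
      have h4 : f.f (-((m.natAbs : ℕ) : ℤ)) ≠ c := by
        rwa [show (-((m.natAbs : ℕ) : ℤ)) = m by omega]
      have h5 : m.natAbs ≤ q := Nat.le_findGreatest (hbd _ h4) h4
      omega
    simp [h3]
  · intro h
    apply hq1
    simp only [mul_f, inv_f, inv_n, cst_n, cst_f, neg_zero, sub_zero] at h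
    exact (inv_mul_eq_one.1 h).symm

/-- **Depth bound.** If the elements of height zero are unbounded, then those of length at most `B`
are constant before some `-P`. -/
theorem Dat.depth [Finite K] [IsSimpleGroup K] (D : Dat ℓ δ E)
    (hunb : ¬ ∃ B : ℝ, ∀ f : LG K, f.n = 0 → ℓ.l f ≤ B) (B : ℝ) :
    ∃ P : ℕ, ∀ f : LG K, f.n = 0 → ℓ.l f ≤ B → Hc (-(P : ℤ)) f := by
  by_contra hcon
  push Not at hcon
  apply hunb
  have := Fintype.ofFinite K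
  set C := ∑ c : K, ℓ.l (cst c) with hC
  have hcst : ∀ c : K, ℓ.l (cst c) ≤ C := fun c =>
    Finset.single_le_sum (f := fun c : K => ℓ.l (cst c)) (fun i _ => ℓ.nonneg _)
      (Finset.mem_univ c)
  obtain ⟨B₁, hB₁⟩ := exists_gen ℓ (B + C)
  obtain ⟨b, hb⟩ := D.exists_Qs B₁
  obtain ⟨κ, hκ⟩ := D.Qs_mul
  set L := b + (κ + 1) * κ + κ + (κ + 1) with hL
  refine ⟨C + (2 * E + 12 * δ + 2 * ℓ.l (t ^ L)), fun z hz => ?_⟩
  obtain ⟨p, hp⟩ := exists_hc z hz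
  obtain ⟨f, hf, hfB, hfP⟩ := hcon p
  obtain ⟨c, q, hq, h1, h2⟩ := exists_first f hf p hfP
  have h3 : ℓ.l ((cst c)⁻¹ * f) ≤ B + C := by
    have := ℓ.mul (cst c)⁻¹ f
    rw [ℓ.inv] at this
    have := hcst c
    linarith
  have h4 := hB₁ _ _ h1 h2 h3
  obtain ⟨c', hc'⟩ := hp.exists_hs
  have h5 := (D.all_Qs hb hκ q h4 _ (hc'.mono (by omega))).le
  have h6 := ℓ.mul (cst c') ((cst c')⁻¹ * z)
  rw [mul_inv_cancel_left] at h6
  have h7 := hcst c'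
  linarith

/-- **Uniqueness.** Elements of length at most one have bounded height and depth. -/
theorem Dat.uniq [Finite K] [IsSimpleGroup K] (D : Dat ℓ δ E)
    (hunb : ¬ ∃ B : ℝ, ∀ f : LG K, f.n = 0 → ℓ.l f ≤ B) :
    ∃ P C : ℕ, ∀ g : LG K, ℓ.l g ≤ 1 → g.n.natAbs ≤ C ∧
      ∃ f : LG K, Hc (-(P : ℤ)) f ∧ (g = f * t ^ g.n.natAbs ∨ g = f * (t ^ g.n.natAbs)⁻¹) := by
  obtain ⟨C, hC⟩ := D.large (1 + 2 * E + 2 * δ)
  have hδ := D.H.nn
  -- heights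
  have hht : ∀ g : LG K, ℓ.l g ≤ 1 → g.n.natAbs ≤ C ∧
      ∃ f : LG K, f.n = 0 ∧ (g = f * t ^ g.n.natAbs ∨ g = f * (t ^ g.n.natAbs)⁻¹) := by
    intro g hg
    set m := g.n.natAbs with hm
    rcases le_total 0 g.n with h0 | h0
    · -- positive height
      set f := g * (t ^ m)⁻¹ with hf
      have hfn : f.n = 0 := by rw [hf, mul_n, inv_n, tpow_n]; omega
      have hgf : g = f * t ^ m := by rw [hf, inv_mul_cancel_right]
      refine ⟨?_, f, hfn, Or.inl hgf⟩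
      obtain ⟨n₀, hn₀⟩ := D.bus_zero f hfn
      have h1 := abs_le.1 (hn₀ n₀ le_rfl)
      have h2 := D.qg n₀ m
      have e : g * (t ^ (n₀ + m))⁻¹ = f * (t ^ n₀)⁻¹ := by
        rw [hgf, pow_add]; group
      have h3 := ℓ.le_mul_left g (t ^ (n₀ + m))⁻¹
      rw [e, ℓ.inv] at h3
      by_contra h
      have h4 := hC m (by omega)
      linarith [h1.2]
    · set f := g * t ^ m with hf
      have hfn : f.n = 0 := by rw [hf, mul_n, tpow_n]; omega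
      have hgf : g = f * (t ^ m)⁻¹ := by rw [hf, mul_inv_cancel_right]
      refine ⟨?_, f, hfn, Or.inr hgf⟩
      obtain ⟨n₀, hn₀⟩ := D.bus_zero f hfn
      have h1 := abs_le.1 (hn₀ (n₀ + m) (by omega))
      have h2 := D.qg n₀ m
      have e : g * (t ^ n₀)⁻¹ = f * (t ^ (n₀ + m))⁻¹ := by
        rw [hgf, pow_add]; group
      have h3 := ℓ.mul g (t ^ n₀)⁻¹
      rw [e, ℓ.inv] at h3
      by_contra h
      have h4 := hC m (by omega)
      linarith [h1.1]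
  obtain ⟨P, hP⟩ := D.depth hunb (1 + C * ℓ.l t)
  refine ⟨P, C, fun g hg => ?_⟩
  obtain ⟨h1, f, hfn, h2⟩ := hht g hg
  refine ⟨h1, f, ?_, h2⟩
  apply hP f hfn
  have h3 : ℓ.l (t ^ g.n.natAbs) ≤ C * ℓ.l t :=
    (ℓ.pow_le t _).trans (mul_le_mul_of_nonneg_right (by exact_mod_cast h1) (ℓ.nonneg t))
  rcases h2 with h2 | h2
  · have h4 := ℓ.le_mul_right f (t ^ g.n.natAbs)
    rw [← h2] at h4
    linarith
  · have h4 := ℓ.le_mul_right f (t ^ g.n.natAbs)⁻¹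
    rw [← h2, ℓ.inv] at h4
    linarith

end Pool.Agent.L0h58.QP
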