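import Mathlib
import Pool.Agent.L0h58.QP.Uniq
import Pool.Agent.L0h58.QP.QPX

set_option autoImplicit false

/-!
Every quasi-parabolic generating set of `LG K` is equivalent to `XX K`.
-/

open Pointwise

namespace Pool.Agent.L0h58.QP

open LG

variable {K : Type} [Group K]

/-- a loxodromic element has nonzero height -/
theorem n_ne_of_lox' (ℓ : Len (LG K))
    (hbdd : ∀ p : ℕ, ∃ M : ℝ, 0 ≤ M ∧ ∀ g : LG K, Hc (-(p : ℤ)) g → ℓ.l g ≤ M)
    (g : LG K) (c : ℝ) (hc : 0 < c) (h : ∀ n : ℕ, c * n ≤ ℓ.l (g ^ n)) : g.n ≠ 0 := by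
  intro h0
  obtain ⟨p, hp⟩ := exists_hc g h0
  obtain ⟨M, _, hM⟩ := hbdd p
  obtain ⟨k, hk⟩ := exists_nat_gt (M / c)
  rw [div_lt_iff₀ hc] at hk
  have h1 := h k
  have h2 := hM _ (hp.pow k)
  linarith

/-- if there is a loxodromic element then `t` is loxodromic -/
theorem t_lox (ℓ : Len (LG K))
    (hbdd : ∀ p : ℕ, ∃ M : ℝ, 0 ≤ M ∧ ∀ g : LG K, Hc (-(p : ℤ)) g → ℓ.l g ≤ M)
    (g : LG K) (c : ℝ) (hc : 0 < c) (h : ∀ n : ℕ, c * n ≤ ℓ.l (g ^ n)) :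
    ∃ c' C' : ℝ, 0 < c' ∧ ∀ n : ℕ, c' * n - C' ≤ ℓ.l (t ^ n) := by
  have h0 := n_ne_of_lox' ℓ hbdd g c hc h
  -- reduce to positive height
  suffices H : ∀ g : LG K, 0 < g.n → (∀ n : ℕ, c * n ≤ ℓ.l (g ^ n)) →
      ∃ c' C' : ℝ, 0 < c' ∧ ∀ n : ℕ, c' * n - C' ≤ ℓ.l (t ^ n) by
    rcases lt_or_gt_of_ne h0 with h1 | h1
    · refine H g⁻¹ (by rw [inv_n]; omega) fun n => ?_
      rw [inv_pow, ℓ.inv]
      exact h n
    · exact H g h1 h
  clear h h0 g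
  intro g hg h
  obtain ⟨N, hN⟩ := Int.eq_ofNat_of_zero_le hg.le
  have hN0 : 0 < N := by omega
  have hf0 : (g * (t ^ N)⁻¹).n = 0 := by rw [mul_n, inv_n, tpow_n]; omega
  obtain ⟨p, hp⟩ := exists_hc _ hf0
  obtain ⟨M, hM0, hM⟩ := hbdd p
  have key : ∀ k : ℕ, Hc (-(p : ℤ)) (g ^ k * (t ^ (N * k))⁻¹) := by
    intro k
    induction k with
    | zero =>
      simp only [pow_zero, mul_zero, inv_one, mul_one]
      exact Hc.one
    | succ k ih =>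
      have e : g ^ (k + 1) * (t ^ (N * (k + 1)))⁻¹ =
          (g * (t ^ N)⁻¹) * (t ^ N * (g ^ k * (t ^ (N * k))⁻¹) * (t ^ N)⁻¹) := by
        rw [mul_add, mul_one, pow_add, pow_succ']
        group
      rw [e]
      exact hp.mul (hc_conj_stay ih N)
  have h1 : ∀ k : ℕ, c * k - M ≤ ℓ.l (t ^ (N * k)) := by
    intro k
    have h2 := hM _ (key k)
    have h3 := ℓ.mul (g ^ k * (t ^ (N * k))⁻¹) (t ^ (N * k))
    rw [inv_mul_cancel_right] at h3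
    have := h k
    linarith
  have hNr : (0 : ℝ) < N := by exact_mod_cast hN0
  refine ⟨c / N, c + M + N * ℓ.l t, by positivity, fun n => ?_⟩
  have h2 := h1 (n / N)
  have e : (t : LG K) ^ n = t ^ (N * (n / N)) * t ^ (n % N) := by
    rw [← pow_add, Nat.div_add_mod]
  have h3 := ℓ.le_mul_right (t ^ (N * (n / N))) (t ^ (n % N))
  rw [← e] at h3
  have h4 : ℓ.l (t ^ (n % N)) ≤ N * ℓ.l t :=
    (ℓ.pow_le t _).trans (mul_le_mul_of_nonneg_right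
      (by exact_mod_cast (Nat.mod_lt n hN0).le) (ℓ.nonneg t))
  have h5 : (n : ℝ) / N ≤ ((n / N : ℕ) : ℝ) + 1 := by
    rw [div_le_iff₀ hNr]
    have := Nat.lt_mul_div_succ n hN0
    have h6 : (n : ℝ) ≤ ((N * (n / N + 1) : ℕ) : ℝ) := by exact_mod_cast this.le
    push_cast at h6 ⊢
    linarith
  have h6 : c / N * n = c * (n / N) := by ring
  rw [h6]
  have h7 := mul_le_mul_of_nonneg_left h5 hc.le
  linarith

/-- lower bound for the Gromov product if the elements of height zero are bounded -/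
theorem gpr_ge {ℓ : Len (LG K)} {E B : ℝ} (s : LG K)
    (hqg : ∀ i j : ℕ, ℓ.l (s ^ i) + ℓ.l (s ^ j) ≤ ℓ.l (s ^ (i + j)) + 2 * E)
    (hB : ∀ f : LG K, f.n = 0 → ℓ.l f ≤ B) {x y : LG K} {a b : ℕ} (hx : x.n = (s ^ a).n)
    (hy : y.n = (s ^ b).n) : min (ℓ.l (s ^ a)) (ℓ.l (s ^ b)) - E - 2 * B ≤ gpr ℓ x y := by
  -- it suffices to treat `a ≤ b`
  suffices H : ∀ (a b : ℕ) (x y : LG K), a ≤ b → x.n = (s ^ a).n → y.n = (s ^ b).n →
      ℓ.l (s ^ a) - E - 2 * B ≤ gpr ℓ x y by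
    rcases le_total a b with h | h
    · have := min_le_left (ℓ.l (s ^ a)) (ℓ.l (s ^ b))
      have := H a b x y h hx hy
      linarith
    · have := min_le_right (ℓ.l (s ^ a)) (ℓ.l (s ^ b))
      have := H b a y x h hy hx
      rw [gpr_comm] at this
      linarith
  clear hx hy x y a b
  intro a b x y hab hx hy
  obtain ⟨r, rfl⟩ := Nat.exists_eq_add_of_le hab
  have h1 := hB ((s ^ a)⁻¹ * x) (by rw [mul_n, inv_n, hx]; omega)
  have h2 := hB ((s ^ (a + r))⁻¹ * y) (by rw [mul_n, inv_n, hy]; omega)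
  have h3 := ℓ.le_mul_right (s ^ a) ((s ^ a)⁻¹ * x)
  rw [mul_inv_cancel_left] at h3
  have h4 := ℓ.le_mul_right (s ^ (a + r)) ((s ^ (a + r))⁻¹ * y)
  rw [mul_inv_cancel_left] at h4
  have h5 := ℓ.mul (((s ^ a)⁻¹ * x)⁻¹ * s ^ r) ((s ^ (a + r))⁻¹ * y)
  have h6 := ℓ.mul ((s ^ a)⁻¹ * x)⁻¹ (s ^ r)
  have e : ((s ^ a)⁻¹ * x)⁻¹ * s ^ r * ((s ^ (a + r))⁻¹ * y) = x⁻¹ * y := by
    rw [pow_add]; group
  rw [e] at h5
  rw [ℓ.inv] at h6
  have h7 := hqg a r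
  unfold gpr
  linarith

section

variable [Finite K] [IsSimpleGroup K]

theorem uniq_QPar (hperf : commutator K = ⊤) (Y : Set (LG K)) (hY : QPar Y) :
    (∃ C : ℕ, ∀ y ∈ Y, wl (XX K) y ≤ C) ∧ (∃ C : ℕ, ∀ x ∈ XX K, wl Y x ≤ C) := by
  obtain ⟨hcl, ⟨δ₀, hδ₀⟩, ⟨g₁, g₂, hg₁, hg₂, hne⟩, -⟩ := hY
  set ℓ := wLen hcl with hℓ
  have hbdd : ∀ p : ℕ, ∃ M : ℝ, 0 ≤ M ∧ ∀ g : LG K, Hc (-(p : ℤ)) g → ℓ.l g ≤ M :=
    fun p => bdd_hc hperf ℓ p
  have hH : Hyp ℓ (max δ₀ 0) := by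
    refine ⟨le_max_right _ _, fun x y z => ?_⟩
    have := hδ₀ x y z
    have := le_max_left δ₀ 0
    unfold gpr
    unfold gpw at *
    simp only [hℓ, wLen_l]
    linarith
  obtain ⟨c₁, hc₁, hl₁⟩ := hg₁
  obtain ⟨c₂, hc₂, hl₂⟩ := hg₂
  obtain ⟨c, C, hc, hcC⟩ := t_lox ℓ hbdd g₁ c₁ hc₁ hl₁
  obtain ⟨E, hE0, hE⟩ := exists_E hH t c C hc hcC
  have htors : ∃ e : ℕ, 0 < e ∧ ∀ g : LG K, g.n = 0 → g ^ e = 1 :=
    ⟨Monoid.exponent K, Monoid.exponent_ne_zero_of_finite.bot_lt, fun g hg => pow_exponent g hg⟩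
  have D : Dat ℓ (max δ₀ 0) E := ⟨hH, hbdd, hE0, hE, exists_large t c C hc hcC, htors⟩
  have hn₁ := n_ne_of_lox' ℓ hbdd g₁ c₁ hc₁ hl₁
  have hn₂ := n_ne_of_lox' ℓ hbdd g₂ c₂ hc₂ hl₂
  -- the elements of height zero are unbounded
  have hunb : ¬ ∃ B : ℝ, ∀ f : LG K, f.n = 0 → ℓ.l f ≤ B := by
    rintro ⟨B, hB⟩
    apply hne
    have hpos : ∀ g h : LG K, 0 < g.n → 0 < h.n → SameEnd Y g h := by
      intro g h hg hh' R
      obtain ⟨N, hN⟩ := D.large (R + E + 2 * B)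
      refine ⟨N, fun n m hn hm => ?_⟩
      have h1 := gpr_ge (ℓ := ℓ) (E := E) (B := B) t hE hB (x := g ^ n) (y := h ^ m)
        (a := n * g.n.natAbs) (b := m * h.n.natAbs)
        (by rw [n_pow, tpow_n]; push_cast; rw [abs_of_pos hg])
        (by rw [n_pow, tpow_n]; push_cast; rw [abs_of_pos hh'])
      have h2 := hN (n * g.n.natAbs) (hn.trans (Nat.le_mul_of_pos_right _ (by omega)))
      have h3 := hN (m * h.n.natAbs) (hm.trans (Nat.le_mul_of_pos_right _ (by omega)))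
      have h4 := lt_min h2 h3
      change R ≤ gpr ℓ (g ^ n) (h ^ m)
      linarith
    have hneg : ∀ g h : LG K, g.n < 0 → h.n < 0 → SameEnd Y g h := by
      intro g h hg hh' R
      obtain ⟨N, hN⟩ := D.large (R + E + 2 * B)
      refine ⟨N, fun n m hn hm => ?_⟩
      have h1 := gpr_ge (ℓ := ℓ) (E := E) (B := B) t⁻¹
        (fun i j => by
          rw [inv_pow, inv_pow, inv_pow, ℓ.inv, ℓ.inv, ℓ.inv]
          exact hE i j) hB (x := g ^ n) (y := h ^ m)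
        (a := n * g.n.natAbs) (b := m * h.n.natAbs)
        (by rw [n_pow, inv_pow, inv_n, tpow_n]; push_cast; rw [abs_of_neg hg]; ring)
        (by rw [n_pow, inv_pow, inv_n, tpow_n]; push_cast; rw [abs_of_neg hh']; ring)
      rw [inv_pow, inv_pow, ℓ.inv, ℓ.inv] at h1
      have h2 := hN (n * g.n.natAbs) (hn.trans (Nat.le_mul_of_pos_right _ (by omega)))
      have h3 := hN (m * h.n.natAbs) (hm.trans (Nat.le_mul_of_pos_right _ (by omega)))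
      have h4 := lt_min h2 h3
      change R ≤ gpr ℓ (g ^ n) (h ^ m)
      linarith
    rcases lt_or_gt_of_ne hn₁ with h1 | h1
    · rcases lt_or_gt_of_ne hn₂ with h2 | h2
      · exact Or.inl ⟨hneg _ _ h1 h2, hpos _ _ (by rw [inv_n]; omega) (by rw [inv_n]; omega)⟩
      · exact Or.inr ⟨hneg _ _ h1 (by rw [inv_n]; omega), hpos _ _ (by rw [inv_n]; omega) h2⟩
    · rcases lt_or_gt_of_ne hn₂ with h2 | h2
      · exact Or.inr ⟨hpos _ _ h1 (by rw [inv_n]; omega), hneg _ _ (by rw [inv_n]; omega) h2⟩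
      · exact Or.inl ⟨hpos _ _ h1 h2, hneg _ _ (by rw [inv_n]; omega) (by rw [inv_n]; omega)⟩
  obtain ⟨P, C₁, hPC⟩ := D.uniq hunb
  constructor
  · refine ⟨2 * P + 1 + C₁, fun y hy => ?_⟩
    have h1 : ℓ.l y ≤ 1 := by
      have : wl Y y ≤ 1 := wl_mem hy
      change ((wl Y y : ℕ) : ℝ) ≤ 1
      exact_mod_cast this
    obtain ⟨h2, f, hf, hyf⟩ := hPC y h1
    have ht : (t : LG K) ∈ XX K := Or.inr rfl
    have h3 : wl (XX K) f ≤ 2 * P + 1 := by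
      have e : f = (t ^ P)⁻¹ * (t ^ P * f * (t ^ P)⁻¹) * t ^ P := by group
      have h4 : Hc 0 (t ^ P * f * (t ^ P)⁻¹) := by
        have := hf.conj P
        rwa [neg_add_cancel] at this
      have h5 := wl_mul closure_XX ((t ^ P)⁻¹ * (t ^ P * f * (t ^ P)⁻¹)) (t ^ P)
      have h6 := wl_mul closure_XX ((t ^ P)⁻¹) (t ^ P * f * (t ^ P)⁻¹)
      have h7 := wl_tpow (XX K) closure_XX ht P
      have h8 := wl_mem (S := XX K) (g := t ^ P * f * (t ^ P)⁻¹) (Or.inl h4)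
      rw [wl_inv] at h6
      rw [← e] at h5
      omega
    have h9 := wl_tpow (XX K) closure_XX ht y.n.natAbs
    rcases hyf with h | h
    · have h4 := wl_mul closure_XX f (t ^ y.n.natAbs)
      rw [← h] at h4
      omega
    · have h4 := wl_mul closure_XX f (t ^ y.n.natAbs)⁻¹
      rw [← h, wl_inv] at h4
      omega
  · obtain ⟨M, hM0, hM⟩ := hbdd 0
    obtain ⟨N, hN⟩ := exists_nat_gt M
    refine ⟨N + wl Y t, fun x hx => ?_⟩
    rcases hx with hx | hx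
    · have h1 := hM x (by simpa using hx)
      have h2 : ((wl Y x : ℕ) : ℝ) < N := lt_of_le_of_lt h1 hN
      have h3 : wl Y x < N := by exact_mod_cast h2
      omega
    · rw [Set.mem_singleton_iff] at hx
      subst hx
      omega

end

end Pool.Agent.L0h58.QP
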